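import Pool.Agent.Lib.HS68.Germ
import Pool.Agent.Lib.HS32.MDefs

/-! The identities of the matrix calculus for functions of the coordinates. -/

namespace Pool.Agent.Lib.HS68

open Filter Topology Complex Matrix
open Pool.Agent.Lib.SV (E)
open Pool.Agent.Lib.HS32
open scoped ContDiff ComplexOrder MatrixOrder

noncomputable section

namespace DR

variable {ι A : Type} [CommRing A] [StarRing A] (D : DR ι A) [Fintype ι] [DecidableEq ι]
  {G : Matrix ι ι A}

/-- The cofactors are divergence free. -/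
lemma div_cof (hu : IsUnit G.det) (hK : D.Kah G) (l : ι) :
    ∑ k, D.d k (G.det * G⁻¹ k l) = 0 := by
  have e : ∀ k, D.d k (G⁻¹ k l) = -∑ m, D.Gam G m k k * G⁻¹ m l := fun k => by
    rw [← dM_apply, D.dM_inv hu, Matrix.neg_apply, Matrix.mul_apply]
    simp only [D.Gam_symm hK k _ k]
  simp only [D.mul, D.d_det hu, e, trace, diag_apply, Finset.sum_add_distrib, mul_neg,
    Finset.sum_neg_distrib, Finset.mul_sum, Finset.sum_mul]
  rw [Finset.sum_comm]
  simp only [mul_assoc, add_neg_cancel]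

lemma star_det (hG : G.IsHermitian) : star G.det = G.det := by
  rw [← det_conjTranspose, hG.eq]

lemma divb_cof (hG : G.IsHermitian) (hu : IsUnit G.det) (hK : D.Kah G) (k : ι) :
    ∑ l, D.db l (G.det * G⁻¹ k l) = 0 := by
  have := congrArg star (D.div_cof hu hK k)
  simpa only [star_sum, star_d, star_mul', star_det hG, hG.inv.apply, star_zero] using this

end DR

/-! ### Positivity -/

section pos

variable {ι : Type} [Fintype ι] [DecidableEq ι]

omit [DecidableEq ι] in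
lemma ctr_nonneg {V : Type} [AddCommGroup V] [Module ℂ V] (B : V → V → ℂ)
    (h1 : ∀ (a : ι → ℂ) (T : ι → V) U, B (∑ j, a j • T j) U = ∑ j, a j * B (T j) U)
    (h2 : ∀ T U, star (B T U) = B U T) (h3 : ∀ T, 0 ≤ B T T) {P : Matrix ι ι ℂ}
    (hP : P.PosSemidef) (T : ι → V) : 0 ≤ ∑ j, ∑ i, P j i * B (T j) (T i) := by
  classical
  obtain ⟨W, rfl⟩ := CStarAlgebra.nonneg_iff_eq_star_mul_self.1 hP.nonneg
  have e : ∀ a, B (∑ j, star (W a j) • T j) (∑ j, star (W a j) • T j) =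
      ∑ j, ∑ i, star (W a j) * W a i * B (T j) (T i) := by
    intro a
    rw [h1]
    refine Finset.sum_congr rfl fun j _ => ?_
    rw [← h2, h1, star_sum, Finset.mul_sum]
    refine Finset.sum_congr rfl fun i _ => ?_
    rw [star_mul', star_star, h2, mul_assoc]
  have : ∑ j, ∑ i, (star W * W) j i * B (T j) (T i) =
      ∑ a, B (∑ j, star (W a j) • T j) (∑ j, star (W a j) • T j) := by
    simp only [e, Matrix.mul_apply, star_apply, Finset.sum_mul]
    calc _ = ∑ j, ∑ a, ∑ i, star (W a j) * W a i * B (T j) (T i) :=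
          Finset.sum_congr rfl fun _ _ => Finset.sum_comm
      _ = _ := Finset.sum_comm
  rw [this]
  exact Finset.sum_nonneg fun a _ => h3 _

variable {G H : Matrix ι ι ℂ}

lemma trace_form_nonneg (hG : G.PosDef) (hH : H.PosSemidef) (T : Matrix ι ι ℂ) :
    0 ≤ trace (G⁻¹ * Tᴴ * H * T) := by
  obtain ⟨W, hW⟩ := CStarAlgebra.nonneg_iff_eq_star_mul_self.1 hG.inv.posSemidef.nonneg
  have := (hH.conjTranspose_mul_mul_same (T * Wᴴ)).trace_nonneg
  rw [conjTranspose_mul, conjTranspose_conjTranspose, ← Matrix.mul_assoc, trace_mul_comm] at this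
  rw [hW, star_eq_conjTranspose]
  simpa only [Matrix.mul_assoc] using this

lemma ip_nonneg (hG : G.PosDef) (hH : H.PosSemidef) (T : ι → Matrix ι ι ℂ) :
    0 ≤ DR.ip G H T T := by
  refine ctr_nonneg (fun T U => trace (G⁻¹ * Uᴴ * H * T)) (fun a T U => ?_) (fun T U => ?_)
    (trace_form_nonneg hG hH) hG.inv.posSemidef T
  · simp only [Matrix.mul_sum, Matrix.mul_smul, trace_sum, trace_smul, smul_eq_mul]
  · rw [← trace_conjTranspose]
    simp only [conjTranspose_mul, conjTranspose_conjTranspose, hG.1.inv.eq, hH.1.eq]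
    rw [← Matrix.mul_assoc, ← Matrix.mul_assoc, trace_mul_comm]
    simp only [Matrix.mul_assoc]

lemma ctr_ip_nonneg (hG : G.PosDef) (hH : H.PosSemidef) {P : Matrix ι ι ℂ} (hP : P.PosSemidef)
    (T : ι → ι → Matrix ι ι ℂ) : 0 ≤ ∑ j, ∑ i, P j i * DR.ip G H (T j) (T i) := by
  refine ctr_nonneg (DR.ip G H) (fun a T U => ?_) (DR.star_ip hG.1 hH.1) (ip_nonneg hG hH) hP T
  have : (∑ j, a j • T j) = fun k => ∑ j, a j • T j k := by
    funext k
    simp only [Finset.sum_apply, Pi.smul_apply]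
  rw [this, DR.ip_sum_left]
  simp only [DR.ip_smul_left]

lemma ctr_ip_nonneg' (hG : G.PosDef) (hH : H.PosSemidef) {P : Matrix ι ι ℂ} (hP : P.PosSemidef)
    (T : ι → ι → Matrix ι ι ℂ) : 0 ≤ ∑ j, ∑ i, P j i * DR.ip G H (T i) (T j) := by
  rw [Finset.sum_comm]
  exact ctr_ip_nonneg hG hH hP.transpose T

end pos

/-! ### Transfer -/

variable {n : ℕ} {z : E n}

/-- A smooth positive Hermitian matrix of functions near `z`. -/
structure Loc (G : E n → Mat n) (z : E n) : Prop where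
  sm : SmM G z
  herm : ∀ᶠ w in 𝓝 z, (G w).IsHermitian
  pos : (G z).PosDef

/-- The Kaehler condition near `z`. -/
def Kl (G : E n → Mat n) (z : E n) : Prop := ∀ᶠ w in 𝓝 z, ClM G w

lemma met_loc {M : Mf n} {G : M.Fam (Mat n)} (h : M.Met G) {e : M.Ch} (he : e ∈ M.C)
    (hz : z ∈ e.target) : Loc (G e) z :=
  ⟨h.sm e he z hz, (e.open_target.eventually_mem hz).mono (h.herm e he), h.pos e he z hz⟩

lemma clo_kl {M : Mf n} {G : M.Fam (Mat n)} (h : M.Clo G) {e : M.Ch} (he : e ∈ M.C)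
    (hz : z ∈ e.target) : Kl (G e) z := (e.open_target.eventually_mem hz).mono (h.cl e he)

/-- The Ricci form in coordinates. -/
def ricF (G : E n → Mat n) (z : E n) : Mat n := -hess (ld G) z

/-- The covariant derivative of a matrix valued form. -/
def nabF (G H : E n → Mat n) (j : Fin n) (T : Fin n → E n → Mat n) (k : Fin n) (z : E n) : Mat n :=
  dM j (T k) z + gam H j z * T k z - T k z * gam G j z - ∑ m, gam G j z m k • T m z

/-- The first order term in the Calabi identity. -/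
def calZF (G H : E n → Mat n) (k : Fin n) (z : E n) : Mat n :=
  ∑ j, ∑ i, (G z)⁻¹ j i • nabF G G j (fun l => th H l i) k z -
    (G z)⁻¹ * (dM k (ricF G) z - ricF G z * gam G k z)

/-- The action of an endomorphism on a matrix valued form. -/
def act (ρ : Mat n) (T : Fin n → Mat n) (k : Fin n) : Mat n :=
  ρ * T k - T k * ρ - ∑ m, ρ m k • T m

lemma en_eq (G H B : E n → Mat n) (z : E n) :
    en G H B z = DR.ip (G z) (B z) (fun k => df G H k z) fun k => df G H k z := by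
  refine Finset.sum_congr rfl fun k _ => Finset.sum_congr rfl fun l _ => ?_
  rw [Matrix.mul_assoc (B z * _), trace_mul_comm]
  simp only [Matrix.mul_assoc]

lemma dz_comp {φ : ℂ → ℂ} {φ' : ℂ} {f : E n → ℂ} (hφ : HasDerivAt φ φ' (f z))
    (hf : DifferentiableAt ℝ f z) (j : Fin n) : dz j (fun w => φ (f w)) z = φ' * dz j f z := by
  have := ((hφ.hasFDerivAt.restrictScalars ℝ).comp z hf.hasFDerivAt).fderiv
  have e : ∀ v, fderiv ℝ (fun w => φ (f w)) z v = φ' * fderiv ℝ f z v := fun v => by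
    refine (congrArg (fun L => L v) this).trans ?_
    simp [mul_comm]
  simp only [dz, e]
  ring

namespace RepM

variable {M N : Matrix (Fin n) (Fin n) (Gm z)} {F G : E n → Mat n}

lemma dM' (hM : RepM M F) (k : Fin n) : RepM ((germDR z).dM k M) (HS32.dM k F) := hM.dM k

lemma dMb (hM : RepM M F) (k : Fin n) : RepM ((germDR z).bM k M) (HS32.dMb k F) := hM.bM k

lemma smM (hM : RepM M F) : SmM F z := fun i j => (hM i j).smooth

lemma kl (hM : RepM M F) (h : Kl F z) : (germDR z).Kah M := hM.kah h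

lemma gam (hM : RepM M F) (h0 : (F z).det ≠ 0) (k : Fin n) :
    RepM ((germDR z).Gam M k) (HS32.gam F k) := (hM.inv h0).mul (hM.dM' k)

lemma th (hM : RepM M F) (h0 : (F z).det ≠ 0) (k l : Fin n) :
    RepM ((germDR z).Th M k l) (HS32.th F k l) := ((hM.gam h0 k).dMb l).neg

lemma df (hM : RepM M F) (h0 : (F z).det ≠ 0) (hN : RepM N G) (h1 : (G z).det ≠ 0) (k : Fin n) :
    RepM ((germDR z).Dif M N k) (HS32.df F G k) := (hM.gam h0 k).sub (hN.gam h1 k)

lemma ip (hM : RepM M F) (h0 : (F z).det ≠ 0) (hN : RepM N G)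
    {T U : Fin n → Matrix (Fin n) (Fin n) (Gm z)} {T' U' : Fin n → E n → Mat n}
    (hT : ∀ k, RepM (T k) (T' k)) (hU : ∀ k, RepM (U k) (U' k)) :
    Rep (DR.ip M N T U) fun w => DR.ip (F w) (G w) (fun k => T' k w) fun k => U' k w :=
  Rep.sum _ fun k => Rep.sum _ fun l => (hM.inv h0 k l).mul
    ((((hM.inv h0).mul (hU l).conjTranspose).mul hN).mul (hT k)).trace

lemma nab (hM : RepM M F) (h0 : (F z).det ≠ 0) (hN : RepM N G) (h1 : (G z).det ≠ 0)
    {T : Fin n → Matrix (Fin n) (Fin n) (Gm z)} {T' : Fin n → E n → Mat n}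
    (hT : ∀ k, RepM (T k) (T' k)) (j k : Fin n) :
    RepM ((germDR z).nab M N j T k) (nabF F G j T' k) :=
  ((((hT k).dM' j).add ((hN.gam h1 j).mul (hT k))).sub ((hT k).mul (hM.gam h0 j))).sub
    (RepM.sum _ fun m => RepM.smul (hM.gam h0 j m k) (hT m))

lemma lap (hM : RepM M F) (h0 : (F z).det ≠ 0) {a : Gm z} {f : E n → ℂ} (ha : Rep a f) :
    Rep ((germDR z).lap M a) fun w => ((F w)⁻¹ * HS32.hess f w).trace :=
  ((hM.inv h0).mul ha.hess).trace

end RepM

namespace Loc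

variable {G H : E n → Mat n}

lemma det_ne (h : Loc G z) : (G z).det ≠ 0 := h.pos.det_pos.ne'

/-- The matrix of germs. -/
lemma rep (h : Loc G z) : ∃ M : Matrix (Fin n) (Fin n) (Gm z),
    RepM M G ∧ M.IsHermitian ∧ IsUnit M.det := by
  obtain ⟨M, hM⟩ := exists_repM h.sm
  exact ⟨M, hM, hM.isHermitian h.herm, hM.isUnit_det h.det_ne⟩

lemma ev_exp (h : Loc G z) : ∀ᶠ w in 𝓝 z, 0 < (G w).det.re ∧ exp (ld G w) = (G w).det := by
  obtain ⟨M, hM, -, -⟩ := h.rep
  have hc : ContinuousAt (fun w => (G w).det.re) z :=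
    continuous_re.continuousAt.comp hM.det.smooth.continuousAt
  filter_upwards [hc.eventually (lt_mem_nhds (pos_iff.1 h.pos.det_pos).1), h.herm] with w h1 h2
  refine ⟨h1, ?_⟩
  rw [ld, ← ofReal_exp, Real.exp_log h1]
  exact conj_eq_iff_re.1 (DR.star_det h2)

lemma smooth_ld (h : Loc G z) : ContDiffAt ℝ ∞ (ld G) z := by
  obtain ⟨M, hM, -, -⟩ := h.rep
  exact ofRealCLM.contDiff.contDiffAt.comp z
    ((reCLM.contDiff.contDiffAt.comp z hM.det.smooth).log h.ev_exp.self_of_nhds.1.ne')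

lemma ev_dz_ld (h : Loc G z) (k : Fin n) :
    ∀ᶠ w in 𝓝 z, dz k (ld G) w = (gam G k w).trace := by
  obtain ⟨M, hM, -, hu⟩ := h.rep
  have e1 := ((hM.det.congr (h.ev_exp.mono fun w hw => hw.2.symm)).d k).ev
    ((germDR z).d_det hu k ▸ hM.det.mul (hM.gam h.det_ne k).trace)
  filter_upwards [e1, h.ev_exp, ev_diff h.smooth_ld] with w h1 h2 h3
  have h4 := dz_comp (hasDerivAt_exp _) h3 k
  rw [h2.2] at h4
  exact mul_left_cancel₀ (h2.2 ▸ exp_ne_zero _) (h4.symm.trans h1)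

lemma dz_ld (h : Loc G z) (k : Fin n) : dz k (ld G) z = (gam G k z).trace :=
  (h.ev_dz_ld k).self_of_nhds

lemma rep_ric (h : Loc G z) {M : Matrix (Fin n) (Fin n) (Gm z)} (hM : RepM M G) :
    RepM ((germDR z).Ric M) (ricF G) := by
  obtain ⟨L, hL⟩ := exists_rep h.smooth_ld
  rw [(germDR z).Ric_eq (L := L) fun k =>
    (hL.d k).ext (hM.gam h.det_ne k).trace (h.ev_dz_ld k)]
  exact hL.hess.neg

lemma ric_apply (h : Loc G z) (l k : Fin n) : ricF G z l k = (th G k l z).trace := by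
  obtain ⟨M, hM, -, -⟩ := h.rep
  exact (h.rep_ric hM l k).val (hM.th h.det_ne k l).trace rfl

lemma ric_herm (h : Loc G z) : (ricF G z).IsHermitian := by
  obtain ⟨M, hM, h1, hu⟩ := h.rep
  exact (h.rep_ric hM).conjTranspose.val (h.rep_ric hM) ((germDR z).Ric_herm h1 hu)

lemma smM_inv (h : Loc G z) : SmM (fun w => (G w)⁻¹) z := by
  obtain ⟨M, hM, -, -⟩ := h.rep
  exact (hM.inv h.det_ne).smM

lemma smM_gam (h : Loc G z) (k : Fin n) : SmM (gam G k) z := by
  obtain ⟨M, hM, -, -⟩ := h.rep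
  exact (hM.gam h.det_ne k).smM

lemma smM_th (h : Loc G z) (k l : Fin n) : SmM (th G k l) z := by
  obtain ⟨M, hM, -, -⟩ := h.rep
  exact (hM.th h.det_ne k l).smM

lemma smM_ric (h : Loc G z) : SmM (ricF G) z := by
  obtain ⟨M, hM, -, -⟩ := h.rep
  exact (h.rep_ric hM).smM

lemma smooth_en (h : Loc G z) (h' : Loc H z) {B : E n → Mat n} (hB : SmM B z) :
    ContDiffAt ℝ ∞ (en G H B) z := by
  obtain ⟨M, hM, -, -⟩ := h.rep
  obtain ⟨N, hN, -, -⟩ := h'.rep
  obtain ⟨P, hP⟩ := exists_repM hB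
  rw [funext (en_eq G H B)]
  exact (hM.ip h.det_ne hP (hM.df h.det_ne hN h'.det_ne) (hM.df h.det_ne hN h'.det_ne)).smooth

lemma dM_eq (h : Loc G z) (k : Fin n) : dM k G z = G z * gam G k z := by
  rw [gam, ← Matrix.mul_assoc, mul_nonsing_inv _ (Ne.isUnit h.det_ne), Matrix.one_mul]

lemma dMb_eq (h : Loc G z) (l : Fin n) : dMb l G z = (gam G l z)ᴴ * G z := by
  obtain ⟨M, hM, h1, hu⟩ := h.rep
  exact (hM.dMb l).val ((hM.gam h.det_ne l).conjTranspose.mul hM) ((germDR z).bM_eq h1 hu l)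

lemma dM_inv (h : Loc G z) (k : Fin n) :
    dM k (fun w => (G w)⁻¹) z = -(gam G k z * (G z)⁻¹) := by
  obtain ⟨M, hM, -, hu⟩ := h.rep
  exact ((hM.inv h.det_ne).dM' k).val ((hM.gam h.det_ne k).mul (hM.inv h.det_ne)).neg
    ((germDR z).dM_inv hu k)

lemma dMb_inv (h : Loc G z) (l : Fin n) :
    dMb l (fun w => (G w)⁻¹) z = -((G z)⁻¹ * (gam G l z)ᴴ) := by
  obtain ⟨M, hM, h1, hu⟩ := h.rep
  exact ((hM.inv h.det_ne).dMb l).val
    ((hM.inv h.det_ne).mul (hM.gam h.det_ne l).conjTranspose).neg ((germDR z).bM_inv h1 hu l)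

lemma dz_det (h : Loc G z) (k : Fin n) :
    dz k (fun w => (G w).det) z = (G z).det * (gam G k z).trace := by
  obtain ⟨M, hM, -, hu⟩ := h.rep
  exact (hM.det.d k).val (hM.det.mul (hM.gam h.det_ne k).trace) ((germDR z).d_det hu k)

lemma mul_th (h : Loc G z) (k l : Fin n) :
    G z * th G k l z = (gam G l z)ᴴ * G z * gam G k z - dMb l (dM k G) z := by
  obtain ⟨M, hM, h1, hu⟩ := h.rep
  exact (hM.mul (hM.th h.det_ne k l)).val ((((hM.gam h.det_ne l).conjTranspose.mul hM).mul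
    (hM.gam h.det_ne k)).sub ((hM.dM' k).dMb l)) ((germDR z).mul_Th h1 hu k l)

lemma mul_th_herm (h : Loc G z) (k l : Fin n) : (G z * th G k l z)ᴴ = G z * th G l k z := by
  obtain ⟨M, hM, h1, hu⟩ := h.rep
  exact (hM.mul (hM.th h.det_ne k l)).conjTranspose.val (hM.mul (hM.th h.det_ne l k))
    ((germDR z).mul_Th_herm h1 hu k l)

lemma gam_symm (hK : Kl G z) (m j k : Fin n) : gam G k z m j = gam G j z m k := by
  simp only [gam, Matrix.mul_apply, hK.self_of_nhds _ j k]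

lemma th_symm (h : Loc G z) (hK : Kl G z) (m a k l : Fin n) : th G k l z m a = th G a l z m k := by
  obtain ⟨M, hM, -, -⟩ := h.rep
  exact (hM.th h.det_ne k l m a).val (hM.th h.det_ne a l m k)
    ((germDR z).Th_symm (hM.kl hK) m a k l)

lemma mul_th_symm (h : Loc G z) (hK : Kl G z) (k l a b : Fin n) :
    (G z * th G k l z) b a = (G z * th G a l z) b k := by
  simp only [Matrix.mul_apply, h.th_symm hK _ a k l]

lemma mul_th_symm' (h : Loc G z) (hK : Kl G z) (k l a b : Fin n) :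
    (G z * th G k l z) b a = (G z * th G k b z) l a := by
  rw [← h.mul_th_herm l k, ← h.mul_th_herm b k, conjTranspose_apply, conjTranspose_apply,
    h.mul_th_symm hK]

lemma ctr_th (h : Loc G z) (hK : Kl G z) :
    ∑ k, ∑ l, (G z)⁻¹ k l • th G k l z = (G z)⁻¹ * ricF G z := by
  obtain ⟨M, hM, h1, hu⟩ := h.rep
  exact (RepM.sum _ fun k => RepM.sum _ fun l =>
    RepM.smul (hM.inv h.det_ne k l) (hM.th h.det_ne k l)).val
    ((hM.inv h.det_ne).mul (h.rep_ric hM)) ((germDR z).ctr_Th h1 hu (hM.kl hK))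

lemma div_cof (h : Loc G z) (hK : Kl G z) (l : Fin n) :
    ∑ k, dz k (fun w => (G w).det * (G w)⁻¹ k l) z = 0 := by
  obtain ⟨M, hM, -, hu⟩ := h.rep
  exact (Rep.sum _ fun k => (hM.det.mul (hM.inv h.det_ne k l)).d k).val Rep.zero
    ((germDR z).div_cof hu (hM.kl hK) l)

lemma divb_cof (h : Loc G z) (hK : Kl G z) (k : Fin n) :
    ∑ l, dzb l (fun w => (G w).det * (G w)⁻¹ k l) z = 0 := by
  obtain ⟨M, hM, h1, hu⟩ := h.rep
  exact (Rep.sum _ fun l => (hM.det.mul (hM.inv h.det_ne k l)).db l).val Rep.zero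
    ((germDR z).divb_cof h1 hu (hM.kl hK) k)

lemma dM_quot (h : Loc G z) (h' : Loc H z) (k : Fin n) : dM k (fun w => (G w)⁻¹ * H w) z =
    (G z)⁻¹ * H z * gam H k z - gam G k z * ((G z)⁻¹ * H z) := by
  obtain ⟨M, hM, -, hu⟩ := h.rep
  obtain ⟨N, hN, -, hv⟩ := h'.rep
  have hq := (hM.inv h.det_ne).mul hN
  exact (hq.dM' k).val ((hq.mul (hN.gam h'.det_ne k)).sub ((hM.gam h.det_ne k).mul hq))
    ((germDR z).dM_quot hu hv k)

lemma dMb_quot (h : Loc G z) (h' : Loc H z) (l : Fin n) :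
    dMb l (fun w => (G w)⁻¹ * H w) z = -((G z)⁻¹ * (df G H l z)ᴴ * H z) := by
  obtain ⟨M, hM, h1, hu⟩ := h.rep
  obtain ⟨N, hN, h2, hv⟩ := h'.rep
  exact (((hM.inv h.det_ne).mul hN).dMb l).val
    (((hM.inv h.det_ne).mul (hM.df h.det_ne hN h'.det_ne l).conjTranspose).mul hN).neg
    ((germDR z).bM_quot h1 hu h2 hv l)

lemma dz_trace_quot (h : Loc G z) (h' : Loc H z) (k : Fin n) :
    dz k (fun w => ((G w)⁻¹ * H w).trace) z = -((G z)⁻¹ * H z * df G H k z).trace := by
  obtain ⟨M, hM, -, hu⟩ := h.rep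
  obtain ⟨N, hN, -, hv⟩ := h'.rep
  have hq := (hM.inv h.det_ne).mul hN
  exact (hq.trace.d k).val (hq.mul (hM.df h.det_ne hN h'.det_ne k)).trace.neg
    ((germDR z).d_trace_quot hu hv k)

lemma dMb_df (h : Loc G z) (h' : Loc H z) (k l : Fin n) :
    dMb l (df G H k) z = th H k l z - th G k l z := by
  obtain ⟨M, hM, -, -⟩ := h.rep
  obtain ⟨N, hN, -, -⟩ := h'.rep
  exact ((hM.df h.det_ne hN h'.det_ne k).dMb l).val
    ((hN.th h'.det_ne k l).sub (hM.th h.det_ne k l)) ((germDR z).bM_Dif k l)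

/-- The Chern-Lu identity. -/
theorem chern_lu (h : Loc G z) (hK : Kl G z) (h' : Loc H z) :
    ((G z)⁻¹ * hess (fun w => ((G w)⁻¹ * H w).trace) z).trace =
      en G H H z + ((G z)⁻¹ * H z * (G z)⁻¹ * ricF G z).trace -
        ∑ k, ∑ l, (G z)⁻¹ k l * ((G z)⁻¹ * H z * th H k l z).trace := by
  obtain ⟨M, hM, h1, hu⟩ := h.rep
  obtain ⟨N, hN, h2, hv⟩ := h'.rep
  have hi := hM.inv h.det_ne
  have hq := hi.mul hN
  have hd := hM.df h.det_ne hN h'.det_ne
  rw [en_eq]
  exact (hM.lap h.det_ne hq.trace).val (((hM.ip h.det_ne hN hd hd).add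
    ((hq.mul hi).mul (h.rep_ric hM)).trace).sub (Rep.sum _ fun k => Rep.sum _ fun l =>
      (hi k l).mul (hq.mul (hN.th h'.det_ne k l)).trace))
    ((germDR z).chern_lu h1 hu (hM.kl hK) h2 hv)

lemma dz_en (h : Loc G z) (h' : Loc H z) (j : Fin n) : dz j (en G H G) z =
    DR.ip (G z) (G z) (fun k => nabF G G j (df G H) k z) (fun k => df G H k z) +
      DR.ip (G z) (G z) (fun k => df G H k z) fun k => dMb j (df G H k) z := by
  obtain ⟨M, hM, -, hu⟩ := h.rep
  obtain ⟨N, hN, -, -⟩ := h'.rep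
  have hd := hM.df h.det_ne hN h'.det_ne
  rw [funext (en_eq G H G)]
  exact ((hM.ip h.det_ne hM hd hd).d j).val
    ((hM.ip h.det_ne hM (hM.nab h.det_ne hM h.det_ne hd j) hd).add
      (hM.ip h.det_ne hM hd fun k => (hd k).dMb j)) ((germDR z).d_ip hu hu j _ _)

/-- The Calabi identity. -/
theorem calabi (h : Loc G z) (hK : Kl G z) (h' : Loc H z) :
    ((G z)⁻¹ * hess (en G H G) z).trace =
      ∑ j, ∑ i, (G z)⁻¹ j i * DR.ip (G z) (G z) (fun k => nabF G G j (df G H) k z)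
        (fun k => nabF G G i (df G H) k z) +
      ∑ j, ∑ i, (G z)⁻¹ j i * DR.ip (G z) (G z) (fun k => dMb i (df G H k) z)
        (fun k => dMb j (df G H k) z) +
      DR.ip (G z) (G z) (fun k => calZF G H k z) (fun k => df G H k z) +
      DR.ip (G z) (G z) (fun k => df G H k z) (fun k => calZF G H k z) -
      DR.ip (G z) (G z) (act ((G z)⁻¹ * ricF G z) fun k => df G H k z) fun k => df G H k z := by
  obtain ⟨M, hM, h1, hu⟩ := h.rep
  obtain ⟨N, hN, -, -⟩ := h'.rep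
  have h0 := h.det_ne
  have hi := hM.inv h0
  have hd := hM.df h0 hN h'.det_ne
  have hr := h.rep_ric hM
  have hn := hM.nab h0 hM h0 hd
  have hz : ∀ k, RepM ((germDR z).calZ M N k) (calZF G H k) := fun k =>
    (RepM.sum _ fun j => RepM.sum _ fun i => RepM.smul (hi j i)
      (hM.nab h0 hM h0 (fun l => hN.th h'.det_ne l i) j k)).sub
      (hi.mul ((hr.dM' k).sub (hr.mul (hM.gam h0 k))))
  have hρ := hi.mul hr
  rw [funext (en_eq G H G)]
  exact (hM.lap h0 (hM.ip h0 hM hd hd)).val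
    (((((Rep.sum _ fun j => Rep.sum _ fun i => (hi j i).mul (hM.ip h0 hM (hn j) (hn i))).add
      (Rep.sum _ fun j => Rep.sum _ fun i => (hi j i).mul
        (hM.ip h0 hM (fun k => (hd k).dMb i) fun k => (hd k).dMb j))).add
      (hM.ip h0 hM hz hd)).add (hM.ip h0 hM hd hz)).sub
      (hM.ip h0 hM (fun k => ((hρ.mul (hd k)).sub ((hd k).mul hρ)).sub
        (RepM.sum _ fun m => RepM.smul (hρ m k) (hd m))) hd))
    ((germDR z).calabi h1 hu (hM.kl hK))

/-- The Calabi inequality. -/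
theorem calabi_le (h : Loc G z) (hK : Kl G z) (h' : Loc H z) :
    2 * (DR.ip (G z) (G z) (fun k => calZF G H k z) fun k => df G H k z).re -
      (DR.ip (G z) (G z) (act ((G z)⁻¹ * ricF G z) fun k => df G H k z) fun k => df G H k z).re ≤
      ((G z)⁻¹ * hess (en G H G) z).trace.re := by
  have a := (nonneg_iff.1 (ctr_ip_nonneg h.pos h.pos.posSemidef h.pos.inv.posSemidef
    fun j k => nabF G G j (df G H) k z)).1
  have b := (nonneg_iff.1 (ctr_ip_nonneg' h.pos h.pos.posSemidef h.pos.inv.posSemidef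
    fun j k => dMb j (df G H k) z)).1
  rw [h.calabi hK h', ← DR.star_ip h.pos.1 h.pos.1 (fun k => calZF G H k z)]
  simp only [sub_re, add_re, RCLike.star_def, conj_re]
  linarith

lemma en_nonneg (h : (G z).PosDef) {B : E n → Mat n} (hB : (B z).PosSemidef) : 0 ≤ en G H B z := by
  rw [en_eq]
  exact ip_nonneg h hB _

lemma nabF_change (j : Fin n) (T : Fin n → E n → Mat n) (k : Fin n) :
    nabF G G j T k z = nabF H H j T k z + act (df G H j z) (fun l => T l z) k := by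
  simp only [nabF, act, df, Matrix.sub_apply, sub_smul, Finset.sum_sub_distrib]
  noncomm_ring

end Loc

end

end Pool.Agent.Lib.HS68
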