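import Pool.Agent.Lib.HS68.Gram

/-! The pointwise identities behind the estimate of Hörmander. -/

namespace Pool.Agent.Lib.HS68

open Filter Topology Complex Matrix
open Pool.Agent.Lib.SV (E)
open Pool.Agent.Lib.HS32
open scoped ContDiff ComplexOrder

noncomputable section

namespace DR

variable {ι A : Type} [CommRing A] [StarRing A] (D : DR ι A) [Fintype ι]

/-- The weighted divergence. -/
def wdv (a W : ι → A) : A := ∑ k, (D.d k (W k) - a k * W k)

variable {ρ : A} {a W : ι → A}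

lemma adj_div (ha : ∀ k, D.d k ρ = -(a k * ρ)) (g : A) :
    ∑ k, D.d k (W k * star g * ρ) =
      (D.wdv a W * star g + ∑ k, W k * star (D.db k g)) * ρ := by
  rw [wdv, Finset.sum_mul, ← Finset.sum_add_distrib, Finset.sum_mul]
  refine Finset.sum_congr rfl fun k _ => ?_
  rw [D.leib_d, D.leib_d, ha, star_db]
  ring

lemma hor_div (hρ : star ρ = ρ) (ha : ∀ k, D.d k ρ = -(a k * ρ)) :
    ∑ l, D.db l (D.wdv a W * star (W l) * ρ) -
      ∑ k, D.d k ((∑ l, D.db l (W k) * star (W l)) * ρ) =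
    (D.wdv a W * star (D.wdv a W) - ∑ l, ∑ k, star (W l) * (D.db l (a k) * W k) -
      ∑ k, ∑ l, D.db l (W k) * star (D.db k (W l))) * ρ := by
  have hb : ∀ l, D.db l ρ = -(star (a l) * ρ) := fun l => by
    rw [db_apply, hρ, ha, star_neg, star_mul', hρ]
  have e1 : ∑ l, D.db l (D.wdv a W * star (W l) * ρ) =
      ∑ l, D.db l (D.wdv a W) * star (W l) * ρ + D.wdv a W * star (D.wdv a W) * ρ := by
    conv_rhs => rw [show star (D.wdv a W) = ∑ l, (star (D.d l (W l)) - star (a l) * star (W l)) by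
      simp [wdv, star_sum]]
    rw [Finset.mul_sum, Finset.sum_mul, ← Finset.sum_add_distrib]
    refine Finset.sum_congr rfl fun l _ => ?_
    rw [D.leib_db, D.leib_db, hb, star_d]
    ring
  have e2 : ∑ l, D.db l (D.wdv a W) * star (W l) * ρ = ∑ k, ∑ l, (D.db l (D.d k (W k)) -
      (D.db l (a k) * W k + a k * D.db l (W k))) * star (W l) * ρ := by
    rw [Finset.sum_comm]
    refine Finset.sum_congr rfl fun l _ => ?_
    simp only [wdv, map_sum, map_sub, D.leib_db l _ _, Finset.sum_mul]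
  have e3 : ∀ k, D.d k ((∑ l, D.db l (W k) * star (W l)) * ρ) =
      ∑ l, ((D.db l (D.d k (W k)) * star (W l) + D.db l (W k) * star (D.db k (W l))) * ρ -
        D.db l (W k) * star (W l) * (a k * ρ)) := fun k => by
    rw [Finset.sum_mul, map_sum]
    refine Finset.sum_congr rfl fun l _ => ?_
    rw [D.leib_d, D.leib_d, ha, star_db, d_db]
    ring
  rw [e1, e2, Finset.sum_comm (f := fun l k => star (W l) * (D.db l (a k) * W k))]
  simp only [e3]
  simp only [sub_mul, Finset.sum_mul]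
  rw [add_sub_right_comm, ← Finset.sum_sub_distrib, sub_sub, ← Finset.sum_add_distrib,
    add_comm, sub_eq_add_neg (_ * _ * ρ), ← Finset.sum_neg_distrib]
  congr 1
  refine Finset.sum_congr rfl fun k _ => ?_
  rw [← Finset.sum_sub_distrib, ← Finset.sum_add_distrib, ← Finset.sum_neg_distrib]
  refine Finset.sum_congr rfl fun l _ => ?_
  ring

variable [DecidableEq ι] {H : Matrix ι ι A}

lemma hor_symm (hH : H.IsHermitian) (hu : IsUnit H.det) (hK : D.Kah H) (s : A) :
    (H * of fun k l => D.db l ((H⁻¹ *ᵥ fun i => D.db i s) k)).IsSymm := by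
  set W := H⁻¹ *ᵥ fun i => D.db i s with hW
  have e : ∀ j, ∑ k, H j k * W k = D.db j s := fun j => by
    have : H *ᵥ W = fun i => D.db i s := by
      rw [hW, mulVec_mulVec, mul_nonsing_inv _ hu, one_mulVec]
    exact congrFun this j
  have e1 : ∀ j l, (H * of fun k l => D.db l (W k)) j l =
      D.db l (D.db j s) - ∑ k, D.db l (H j k) * W k := fun j l => by
    rw [← e j, map_sum, ← Finset.sum_sub_distrib, Matrix.mul_apply]
    refine Finset.sum_congr rfl fun k _ => ?_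
    rw [D.leib_db, of_apply]
    ring
  have e2 : ∀ j l k, D.db l (H j k) = D.db j (H l k) := fun j l k => by
    rw [← hH.apply j k, ← hH.apply l k, ← star_d, ← star_d, hK]
  refine IsSymm.ext fun j l => ?_
  rw [e1, e1, db_db]
  simp only [e2 j l]

omit [DecidableEq ι] in
lemma wdv_box (a : ι → A) (P : Matrix ι ι A) (s : A) :
    D.wdv a (P *ᵥ fun i => D.db i s) = trace (P * D.hess s) +
      ∑ l, (∑ k, (D.d k (P k l) - a k * P k l)) * D.db l s := by
  simp only [wdv, mulVec, dotProduct, map_sum, D.leib_d _ _ _, trace, diag, Matrix.mul_apply,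
    hess, of_apply, Finset.sum_mul, Finset.mul_sum]
  rw [Finset.sum_comm (f := fun l k => (D.d k (P k l) - a k * P k l) * D.db l s),
    ← Finset.sum_add_distrib]
  refine Finset.sum_congr rfl fun k _ => ?_
  rw [← Finset.sum_sub_distrib, ← Finset.sum_add_distrib]
  refine Finset.sum_congr rfl fun l _ => ?_
  rw [d_db]
  ring

end DR

lemma symm_trace_nonneg {ι : Type} [Fintype ι] [DecidableEq ι] {H T : Matrix ι ι ℂ}
    (hH : H.PosDef) (hs : (H * T).IsSymm) : 0 ≤ ∑ k, ∑ l, T k l * star (T l k) := by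
  have hT : T = H⁻¹ * (H * T) := by
    rw [← Matrix.mul_assoc, nonsing_inv_mul _ (Ne.isUnit hH.det_pos.ne'), Matrix.one_mul]
  have h1 := rect_form_nonneg hH.inv.posSemidef hH.inv.posSemidef.transpose (H * T)ᴴ
  have h2 : (H⁻¹)ᵀ * (H * T)ᴴ = Tᴴᵀ := by
    conv_rhs => rw [hT, conjTranspose_mul, hH.inv.1.eq, transpose_mul]
    congr 1
    conv_lhs => rw [← hs.eq]
    rfl
  rw [conjTranspose_conjTranspose, ← hT, Matrix.mul_assoc, h2] at h1
  exact h1

variable {n : ℕ} {z : E n}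

/-- The weighted divergence `e^φ ∑ ∂_k (e^(-φ) W_k)`. -/
def wdv (φ : E n → ℝ) (W : E n → E n) (z : E n) : ℂ :=
  ∑ k, (dz k (fun w => W w k) z - dz k (fun w => (φ w : ℂ)) z * W z k)

lemma rep_weight {φ : E n → ℝ} (hφ : ContDiffAt ℝ ∞ φ z) : ∃ f ρ : Gm z,
    Rep f (fun w => (φ w : ℂ)) ∧ Rep ρ (fun w => (Real.exp (-φ w) : ℝ)) ∧ star ρ = ρ ∧
      ∀ k, (germDR z).d k ρ = -((germDR z).d k f * ρ) := by
  have h1 : ContDiffAt ℝ ∞ (fun w => (φ w : ℂ)) z := ofRealCLM.contDiff.contDiffAt.comp z hφ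
  obtain ⟨f, hf⟩ := exists_rep h1
  obtain ⟨ρ, hρ⟩ := exists_rep (f := fun w => ((Real.exp (-φ w) : ℝ) : ℂ))
    (ofRealCLM.contDiff.contDiffAt.comp z hφ.neg.exp)
  refine ⟨f, ρ, hf, hρ, hρ.star.ext hρ (Eventually.of_forall fun w => conj_ofReal _),
    fun k => (hρ.d k).ext ((hf.d k).mul hρ).neg ?_⟩
  filter_upwards [ev_diff h1] with w hw
  have h2 := dz_comp (φ := fun x => exp (-x)) (hasDerivAt_neg' (φ w : ℂ)).cexp hw k
  simp only [ofReal_exp, ofReal_neg]
  refine h2.trans ?_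
  show _ = -(dz k _ w * _)
  ring

lemma exists_repV {W : E n → E n} (hW : ContDiffAt ℝ ∞ W z) :
    ∃ V : Fin n → Gm z, ∀ k, Rep (V k) fun w => W w k := by
  choose V hV using fun k => exists_rep (contDiffAt_pi.1 hW k)
  exact ⟨V, hV⟩

lemma rep_wdv {φ : E n → ℝ} {W : E n → E n} {f : Gm z} {V : Fin n → Gm z}
    (hf : Rep f fun w => (φ w : ℂ)) (hV : ∀ k, Rep (V k) fun w => W w k) :
    Rep ((germDR z).wdv (fun k => (germDR z).d k f) V) (wdv φ W) :=
  Rep.sum _ fun k => ((hV k).d k).sub ((hf.d k).mul (hV k))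

lemma smooth_wdv {φ : E n → ℝ} (hφ : ContDiffAt ℝ ∞ φ z) {W : E n → E n}
    (hW : ContDiffAt ℝ ∞ W z) : ContDiffAt ℝ ∞ (wdv φ W) z := by
  obtain ⟨f, ρ, hf, -, -, -⟩ := rep_weight hφ
  obtain ⟨V, hV⟩ := exists_repV hW
  exact (rep_wdv hf hV).smooth

/-- The weighted divergence is the formal adjoint. -/
theorem adj_div {φ : E n → ℝ} (hφ : ContDiffAt ℝ ∞ φ z) {W : E n → E n}
    (hW : ContDiffAt ℝ ∞ W z) {g : E n → ℂ} (hg : ContDiffAt ℝ ∞ g z) :
    dv (fun w k => W w k * star (g w) * (Real.exp (-φ w) : ℝ)) z =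
      (wdv φ W z * star (g z) + ∑ k, W z k * star (dzb k g z)) * (Real.exp (-φ z) : ℝ) := by
  obtain ⟨f, ρ, hf, hρ, -, hd⟩ := rep_weight hφ
  obtain ⟨V, hV⟩ := exists_repV hW
  obtain ⟨b, hb⟩ := exists_rep hg
  exact (Rep.sum _ fun k => (((hV k).mul hb.star).mul hρ).d k).val
    ((((rep_wdv hf hV).mul hb.star).add (Rep.sum _ fun k => (hV k).mul (hb.db k).star)).mul hρ)
    ((germDR z).adj_div hd b)

/-- The identity of Hörmander as a divergence identity. -/
theorem hor_div {φ : E n → ℝ} (hφ : ContDiffAt ℝ ∞ φ z) {W : E n → E n}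
    (hW : ContDiffAt ℝ ∞ W z) :
    dvb (fun w l => wdv φ W w * star (W w l) * (Real.exp (-φ w) : ℝ)) z -
      dv (fun w k => (∑ l, dzb l (fun x => W x k) w * star (W w l)) * (Real.exp (-φ w) : ℝ)) z =
    (wdv φ W z * star (wdv φ W z) - star (W z) ⬝ᵥ hess (fun w => (φ w : ℂ)) z *ᵥ W z -
      ∑ k, ∑ l, dzb l (fun x => W x k) z * star (dzb k (fun x => W x l) z)) *
        (Real.exp (-φ z) : ℝ) := by
  obtain ⟨f, ρ, hf, hρ, hs, hd⟩ := rep_weight hφ
  obtain ⟨V, hV⟩ := exists_repV hW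
  have h1 := rep_wdv hf hV
  have key := ((Rep.sum _ fun l => ((h1.mul (hV l).star).mul hρ).db l).sub
    (Rep.sum _ fun k => ((Rep.sum _ fun l => ((hV k).db l).mul (hV l).star).mul hρ).d k)).val
    ((((h1.mul h1.star).sub (Rep.sum _ fun l => Rep.sum _ fun k =>
      (hV l).star.mul (((hf.d k).db l).mul (hV k)))).sub (Rep.sum _ fun k => Rep.sum _ fun l =>
        ((hV k).db l).mul ((hV l).db k).star)).mul hρ) ((germDR z).hor_div hs hd)
  have e : star (W z) ⬝ᵥ hess (fun w => (φ w : ℂ)) z *ᵥ W z = ∑ l, ∑ k, star (W z l) *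
      (dzb l (dz k fun w => (φ w : ℂ)) z * W z k) := by
    simp only [dotProduct, mulVec, hess, of_apply, Finset.mul_sum, Pi.star_apply]
  rw [e]
  exact key

/-- The vector field dual to the `(0,1)` derivative of `s`. -/
def dual (H : E n → Mat n) (s : E n → ℂ) (z : E n) : E n := (H z)⁻¹ *ᵥ fun i => dzb i s z

lemma rep_dual {H : E n → Mat n} {M : Matrix (Fin n) (Fin n) (Gm z)} (hM : RepM M H)
    (h0 : (H z).det ≠ 0) {s : E n → ℂ} {b : Gm z} (hb : Rep b s) (k : Fin n) :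
    Rep ((M⁻¹ *ᵥ fun i => (germDR z).db i b) k) fun w => dual H s w k :=
  Rep.sum Finset.univ fun i => (hM.inv h0 k i).mul (hb.db i)

lemma Loc.smooth_dual {H : E n → Mat n} (h : Loc H z) {s : E n → ℂ} (hs : ContDiffAt ℝ ∞ s z) :
    ContDiffAt ℝ ∞ (dual H s) z := by
  obtain ⟨M, hM, -, -⟩ := h.rep
  obtain ⟨b, hb⟩ := exists_rep hs
  exact contDiffAt_pi.2 fun k => (rep_dual hM h.det_ne hb k).smooth

/-- The last term of the identity of Hörmander is non-negative for a Kähler metric. -/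
theorem Loc.hor_nonneg {H : E n → Mat n} (h : Loc H z) (hK : Kl H z) {s : E n → ℂ}
    (hs : ContDiffAt ℝ ∞ s z) : 0 ≤ ∑ k, ∑ l, dzb l (fun x => dual H s x k) z *
      star (dzb k (fun x => dual H s x l) z) := by
  obtain ⟨M, hM, h1, hu⟩ := h.rep
  obtain ⟨b, hb⟩ := exists_rep hs
  have h2 : RepM (of fun k l => (germDR z).db l ((M⁻¹ *ᵥ fun i => (germDR z).db i b) k))
      fun w => of fun k l => dzb l (fun x => dual H s x k) w := fun k l =>
    (rep_dual hM h.det_ne hb k).db l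
  have h3 := (germDR z).hor_symm h1 hu (hM.kl hK) b
  exact symm_trace_nonneg (T := of fun k l => dzb l (fun x => dual H s x k) z) h.pos
    (IsSymm.ext fun i j => (hM.mul h2 j i).val (hM.mul h2 i j) (h3.apply i j))

/-- The operator in coordinates. -/
theorem Loc.wdv_dual {H : E n → Mat n} (h : Loc H z) {φ : E n → ℝ} (hφ : ContDiffAt ℝ ∞ φ z)
    {s : E n → ℂ} (hs : ContDiffAt ℝ ∞ s z) :
    wdv φ (dual H s) z = ((H z)⁻¹ * hess s z).trace + ∑ l, (∑ k, (dz k (fun w => (H w)⁻¹ k l) z -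
      dz k (fun w => (φ w : ℂ)) z * (H z)⁻¹ k l)) * dzb l s z := by
  obtain ⟨M, hM, -, -⟩ := h.rep
  obtain ⟨b, hb⟩ := exists_rep hs
  obtain ⟨f, ρ, hf, -, -, -⟩ := rep_weight hφ
  have hi := hM.inv h.det_ne
  exact (rep_wdv hf (rep_dual hM h.det_ne hb)).val ((hi.mul hb.hess).trace.add (Rep.sum _ fun l =>
    (Rep.sum _ fun k => ((hi k l).d k).sub ((hf.d k).mul (hi k l))).mul (hb.db l)))
    ((germDR z).wdv_box _ _ b)

end

end Pool.Agent.Lib.HS68
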