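import Pool.Agent.Lib.HS.B_GRAD
import Pool.Agent.Lib.HS32.B_MAXE

/-! The local estimate of Calabi with polynomial constants. -/

open scoped Topology ContDiff ComplexOrder Matrix Manifold
open Set Complex Filter

noncomputable section

namespace Pool.Agent.Lib.HS68

open Pool.Agent.Lib.SV (E)
open Pool.Agent.Lib.HS32
open Pool.Agent.Lib.HS78 (Bd Eb ip_le sq_le_ip norm_sum_le')

namespace Calg

variable {n : ℕ} {z : E n} {G T : E n → Mat n} {L m : ℝ}

/-- The flat metric. -/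
def o (_ : E n) : Mat n := 1

lemma loc_o : Loc (o (n := n)) z :=
  ⟨smM_const _, Eventually.of_forall fun _ => Matrix.isHermitian_one, Matrix.PosDef.one⟩

lemma gam_o (k : Fin n) : gam (o (n := n)) k = fun _ => 0 :=
  funext fun w => by rw [gam, show dM k o w = 0 from dM_const _, mul_zero]

lemma th_o (k l : Fin n) : th (o (n := n)) k l = fun _ => 0 :=
  funext fun w => by rw [th, gam_o, dMb_const, neg_zero]

lemma df_o (k : Fin n) : df G o k z = gam G k z := by rw [df, gam_o, sub_zero]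

/-- The squared norm of the connection. -/
def s (G : E n → Mat n) (w : E n) : ℝ := (en G o G w).re

/-- The trace of the inverse. -/
def f (G : E n → Mat n) (w : E n) : ℝ := ((G w)⁻¹ * o w).trace.re

lemma s_eq (h : (G z).PosDef) : (s G z : ℂ) = en G o G z := by
  rw [s, en_eq]
  exact (HS76.ip3_self_eq_re h.inv.posSemidef h.inv.posSemidef h.posSemidef _).symm

lemma f_eq (h : (G z).PosDef) : (f G z : ℂ) = ((G z)⁻¹ * o z).trace :=
  (HS76.tr_eq_re h Matrix.isHermitian_one).symm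

lemma s_nonneg (h : (G z).PosDef) : 0 ≤ s G z := (nonneg_iff.1 (Loc.en_nonneg h h.posSemidef)).1

lemma f_nonneg (h : (G z).PosDef) : 0 ≤ f G z := HS76.tr_nonneg h Matrix.PosSemidef.one

lemma gam_le (hL : 0 < L) (hb : Bd L (G z)) (k : Fin n) : Eb √(L ^ 3 * s G z) (gam G k z) :=
  fun a b => Real.le_sqrt_of_sq_le (by
    have := sq_le_ip hL hb hb (fun k => df G o k z) k a b
    rwa [← en_eq, df_o] at this)

lemma f_le (hL : 0 < L) (hn : (Fintype.card (Fin n) : ℝ) ≤ L) (hb : Bd L (G z)) :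
    f G z ≤ L * L := by
  rw [f, o, mul_one]
  exact (re_le_norm _).trans (((hb.inv hL).eb hL).trace hn hL.le)

/-- The hypotheses at a point. -/
structure Pt (G T : E n → Mat n) (L : ℝ) (z : E n) : Prop where
  one : 1 ≤ L
  card : (Fintype.card (Fin n) : ℝ) ≤ L
  pos : ∀ᶠ w in 𝓝 z, (G w).PosDef
  kl : Kl G z
  ric : ricF G =ᶠ[𝓝 z] fun w => T w - G w
  smG : SmM G z
  smT : SmM T z
  bd : Bd L (G z)
  bT : Eb L (T z)
  dT : ∀ k, Eb L (dM k T z)

namespace Pt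

variable (h : Pt G T L z)
include h

lemma L0 : 0 < L := zero_lt_one.trans_le h.one

lemma loc : Loc G z := ⟨h.smG, h.pos.mono fun _ hw => hw.1, h.pos.self_of_nhds⟩

lemma inv : Eb L (G z)⁻¹ := (h.bd.inv h.L0).eb h.L0

lemma rho : Eb (L * (L * (L + L))) ((G z)⁻¹ * ricF G z) := by
  have := h.L0
  rw [h.ric.self_of_nhds]
  exact h.inv.mul h.card this.le (by positivity) (h.bT.sub (h.bd.eb this))

lemma sm_s : ContDiffAt ℝ ∞ (s G) z := cd_re (h.loc.smooth_en loc_o h.smG)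

lemma sm_f : ContDiffAt ℝ ∞ (f G) z := cd_re (h.loc.smM_inv.mul loc_o.sm).trace

lemma lap_s (hm : 0 ≤ m) (hg : ∀ k, Eb m (gam G k z)) :
    -(8 * L ^ 13 * (m + m ^ 2)) ≤ ((G z)⁻¹ * hess (fun w => (s G w : ℂ)) z).trace.re := by
  have p := h.L0
  have p1 := h.one
  have hd : ∀ k, Eb m (df G o k z) := fun k => by rw [df_o]; exact hg k
  have e : ∀ k, calZF G o k z = -((G z)⁻¹ * (dM k T z - T z * gam G k z)) := fun k => by
    rw [calZF, dM_congr h.ric, dM_sub h.smT h.smG, h.loc.dM_eq, h.ric.self_of_nhds]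
    simp only [nabF, th_o, dM_const, mul_zero, zero_mul, smul_zero, Finset.sum_const_zero,
      add_zero, sub_zero, zero_sub, sub_mul, sub_sub_sub_cancel_right]
  have b1 := ip_le h.card (by positivity) hm h.inv (h.bd.eb p) (fun k => (e k).symm ▸
    (h.inv.mul h.card p.le (by positivity) ((h.dT k).sub (h.bT.mul h.card p.le hm (hg k)))).neg) hd
  have b2 := ip_le (T := act ((G z)⁻¹ * ricF G z) fun k => df G o k z) h.card (by positivity) hm
    h.inv (h.bd.eb p) (fun k => ((h.rho.mul h.card (by positivity) hm (hd k)).sub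
      ((hd k).mul h.card hm (by positivity) h.rho)).sub (b := L * (L * (L * (L + L)) * m))
        fun i j => by
          rw [Matrix.sum_apply]
          exact norm_sum_le' h.card (by positivity) fun a =>
            norm_mul_le_of_le (h.rho a k) (hd a i j)) hd
  have b3 := h.loc.calabi_le h.kl loc_o
  rw [hess_congr (h.pos.mono fun w hw => s_eq hw)]
  have b4 := (abs_le.1 ((abs_re_le_norm _).trans b1)).1
  have b5 := (re_le_norm _).trans b2
  have b6 : L ^ 12 * m ≤ L ^ 13 * m :=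
    mul_le_mul_of_nonneg_right (pow_le_pow_right₀ p1 (by norm_num)) hm
  have b7 : 0 ≤ L ^ 13 * m := by positivity
  nlinarith

lemma lap_f : s G z / L - 2 * L ^ 6 ≤ ((G z)⁻¹ * hess (fun w => (f G w : ℂ)) z).trace.re := by
  have p := h.L0
  have q := h.loc.pos.inv.posSemidef
  have b1 := HS76.ip3_le (a := 1) (b := 1) (C' := (G z)⁻¹) (A' := (G z)⁻¹) q q
    h.loc.pos.posSemidef (by simpa using Matrix.PosSemidef.zero)
    (by simpa using Matrix.PosSemidef.zero) h.bd.2 fun k => df G o k z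
  have b2 : s G z ≤ 1 * 1 * L * (en G o o z).re := by rw [s, en_eq, en_eq]; exact b1
  have b3 := (abs_le.1 ((abs_re_le_norm _).trans ((h.inv.mul h.card p.le (by positivity)
    h.rho).trace h.card (by positivity)))).1
  rw [hess_congr (h.pos.mono fun w hw => f_eq hw), h.loc.chern_lu h.kl loc_o]
  simp only [th_o, mul_zero, Matrix.trace_zero, Finset.sum_const_zero, sub_zero, add_re]
  rw [o, mul_one, mul_assoc]
  have b4 : s G z / L ≤ (en G o o z).re := by rw [div_le_iff₀ p]; linarith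
  nlinarith

lemma dz_f (hm : 0 ≤ m) (hg : ∀ k, Eb m (gam G k z)) (k : Fin n) :
    ‖dz k (fun w => (f G w : ℂ)) z‖ ≤ L ^ 3 * m := by
  have p := h.L0
  rw [dz_congr (h.pos.mono fun w hw => f_eq hw), h.loc.dz_trace_quot loc_o, norm_neg, df_o, o,
    mul_one]
  exact ((h.inv.mul h.card p.le hm (hg k)).trace h.card (by positivity)).trans_eq (by ring)

end Pt

lemma max_ineq {P : Mat n} (hP : P.PosSemidef) (hb : Eb L P) (hL : 0 ≤ L)
    (hn : (Fintype.card (Fin n) : ℝ) ≤ L) {ψ u v : E n → ℝ} (hψ : ContDiffAt ℝ ∞ ψ z)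
    (hu : ContDiffAt ℝ ∞ u z) (hv : ContDiffAt ℝ ∞ v z) {A a d : ℝ} (hA : 0 ≤ A) (h0 : 0 ≤ ψ z)
    (hu0 : 0 ≤ u z) (ha : 0 ≤ a) (hd : 0 ≤ d) (h1 : ∀ k, ‖dz k (fun w => (ψ w : ℂ)) z‖ ≤ a)
    (h2 : Eb L (hess (fun w => (ψ w : ℂ)) z)) (h3 : ∀ k, ‖dz k (fun w => (v w : ℂ)) z‖ ≤ d)
    (hmax : IsLocalMax (fun w => ψ w * u w + A * v w) z) :
    ψ z ^ 2 * (P * hess (fun w => (u w : ℂ)) z).trace.re +
      A * ψ z * (P * hess (fun w => (v w : ℂ)) z).trace.re ≤
      ψ z * u z * L ^ 4 + 2 * L ^ 3 * (a * (u z * a + A * d)) := by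
  obtain ⟨m1, m2⟩ := stMAXE n _ z ((hψ.mul hu).add (contDiffAt_const.mul hv)) hmax
  have cψ := cd_ofReal hψ
  have cu := cd_ofReal hu
  have cv := cd_ofReal hv
  simp only [ofReal_add, ofReal_mul] at m1 m2
  rw [hess_add (cψ.mul cu) (contDiffAt_const.mul cv), hess_mul cψ cu, hess_const_mul _ cv] at m1
  have e1 : ∀ k, ‖ψ z * dz k (fun w => (u w : ℂ)) z‖ ≤ u z * a + A * d := fun k => by
    have := (m2 k).1
    rw [dz_add (cd_diff (cψ.mul cu)) ((cd_diff cv).const_mul _),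
      dz_mul (cd_diff cψ) (cd_diff cu), dz_const_mul _ (cd_diff cv)] at this
    rw [show ψ z * dz k (fun w => (u w : ℂ)) z = -(u z * dz k (fun w => (ψ w : ℂ)) z +
      A * dz k (fun w => (v w : ℂ)) z) by linear_combination this, norm_neg]
    exact norm_add_le_of_le (norm_mul_le_of_le (by simp [abs_of_nonneg hu0]) (h1 k))
      (norm_mul_le_of_le (by simp [abs_of_nonneg hA]) (h3 k))
  have e2 : Eb (a * (u z * a + A * d))
      ((ψ z : ℂ) • dd (fun w => (ψ w : ℂ)) (fun w => (u w : ℂ)) z) := fun i j => by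
    rw [Matrix.smul_apply, dd, Matrix.of_apply, smul_eq_mul, mul_left_comm,
      ← star_dz_ofReal (cd_diff cψ)]
    exact norm_mul_le_of_le ((norm_star _).trans_le (h1 i)) (e1 j)
  have e3 : Eb (a * (u z * a + A * d))
      ((ψ z : ℂ) • dd (fun w => (u w : ℂ)) (fun w => (ψ w : ℂ)) z) := fun i j => by
    rw [Matrix.smul_apply, dd, Matrix.of_apply, smul_eq_mul, ← mul_assoc, mul_comm,
      ← star_dz_ofReal (cd_diff cu)]
    refine norm_mul_le_of_le (h1 j) (le_of_eq_of_le ?_ (e1 i))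
    rw [norm_mul, norm_mul, norm_star]
  have b0 : 0 ≤ a * (u z * a + A * d) := by positivity
  have b1 := (abs_le.1 ((abs_re_le_norm _).trans
    ((hb.mul hn hL hL h2).trace hn (by positivity)))).1
  have b2 := (abs_le.1 ((abs_re_le_norm _).trans
    ((hb.mul hn hL b0 e2).trace hn (by positivity)))).1
  have b3 := (abs_le.1 ((abs_re_le_norm _).trans
    ((hb.mul hn hL b0 e3).trace hn (by positivity)))).1
  have b4 := mul_nonneg h0 (HS78.tr_mul_nonneg hP m1)
  simp only [Matrix.mul_neg, Matrix.mul_add, Matrix.mul_smul, Matrix.trace_neg, Matrix.trace_add,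
    Matrix.trace_smul, smul_eq_mul, neg_re, add_re, re_ofReal_mul] at b2 b3 b4
  nlinarith [mul_le_mul_of_nonneg_left b1 (mul_nonneg h0 hu0)]

lemma arith {η x ls lf : ℝ} (hL : 1 ≤ L) (h0 : 0 ≤ η) (h1 : η ≤ 1) (hm : 0 ≤ m)
    (hx : m ^ 2 = L ^ 3 * x) (a1 : -(8 * L ^ 13 * (m + m ^ 2)) ≤ ls) (a2 : x / L - 2 * L ^ 6 ≤ lf)
    (a3 : (η * η) ^ 2 * ls + 34 * L ^ 17 * (η * η) * lf ≤ η * η * x * L ^ 4 +
      2 * L ^ 3 * (2 * η * L * (x * (2 * η * L) + 34 * L ^ 17 * (L ^ 3 * m)))) :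
    η * m ≤ 14 * L ^ 11 := by
  have p : 0 < L := zero_lt_one.trans_le hL
  have pw : ∀ a b : ℕ, a ≤ b → L ^ a ≤ L ^ b := fun a b => pow_le_pow_right₀ hL
  obtain ⟨r, hr⟩ : ∃ r, r = η * m := ⟨_, rfl⟩
  have r0 : 0 ≤ r := hr ▸ mul_nonneg h0 hm
  obtain rfl : x = m ^ 2 / L ^ 3 := by rw [hx]; field_simp
  have e2 : η * η ≤ 1 := mul_le_one₀ h1 h0 h1
  have c1 : -(8 * L ^ 13 * (r + r ^ 2)) ≤ (η * η) ^ 2 * ls := by
    refine le_trans ?_ (mul_le_mul_of_nonneg_left a1 (sq_nonneg _))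
    have d1 : η ^ 3 * r ≤ r := mul_le_of_le_one_left r0 (pow_le_one₀ h0 h1)
    have d2 : η * η * r ^ 2 ≤ r ^ 2 := mul_le_of_le_one_left (sq_nonneg _) e2
    have d3 : (η * η) ^ 2 * (m + m ^ 2) = η ^ 3 * r + η * η * r ^ 2 := by rw [hr]; ring
    rw [mul_neg, mul_left_comm, d3, neg_le_neg_iff]
    exact mul_le_mul_of_nonneg_left (add_le_add d1 d2) (by positivity)
  have c2 : 34 * L ^ 13 * r ^ 2 - 68 * L ^ 23 ≤ 34 * L ^ 17 * (η * η) * lf := by
    refine le_trans ?_ (mul_le_mul_of_nonneg_left a2 (by positivity))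
    have d1 : 34 * L ^ 17 * (η * η) * (m ^ 2 / L ^ 3 / L - 2 * L ^ 6) =
        34 * L ^ 13 * r ^ 2 - 68 * L ^ 23 * (η * η) := by rw [hr]; field_simp; ring
    nlinarith [mul_le_mul_of_nonneg_left e2 (show 0 ≤ 68 * L ^ 23 by positivity)]
  have c3 : η * η * (m ^ 2 / L ^ 3) * L ^ 4 + 2 * L ^ 3 * (2 * η * L * (m ^ 2 / L ^ 3 *
      (2 * η * L) + 34 * L ^ 17 * (L ^ 3 * m))) = (L ^ 1 + 8 * L ^ 2) * r ^ 2 + 136 * L ^ 24 * r := by
    rw [hr]; field_simp; ring
  have c4 : (L ^ 1 + 8 * L ^ 2) * r ^ 2 ≤ 9 * L ^ 13 * r ^ 2 :=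
    mul_le_mul_of_nonneg_right (by linarith [pw 1 13 (by norm_num), pw 2 13 (by norm_num)])
      (sq_nonneg _)
  have c5 : L ^ 13 * r ≤ L ^ 24 * r := mul_le_mul_of_nonneg_right (pw _ _ (by norm_num)) r0
  have c6 : L ^ 13 * (17 * r ^ 2) ≤ L ^ 13 * (144 * L ^ 11 * r + 68 * L ^ 11) := by
    nlinarith [pw 23 24 (by norm_num)]
  have c7 := le_of_mul_le_mul_left c6 (by positivity)
  have c8 : 1 ≤ L ^ 11 := one_le_pow₀ hL
  rw [← hr]
  by_contra hc
  nlinarith [not_le.1 hc]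

lemma core (h : Pt G T L z) {η : E n → ℝ} (hη : ContDiffAt ℝ ∞ η z) (h0 : 0 ≤ η z) (h1 : η z ≤ 1)
    (h2 : ∀ k, ‖dz k (fun w => (η w : ℂ)) z‖ ≤ L)
    (h3 : Eb L (hess (fun w => ((η w * η w : ℝ) : ℂ)) z))
    (hmax : IsLocalMax (fun w => η w * η w * s G w + 34 * L ^ 17 * f G w) z) :
    η z * η z * s G z ≤ 196 * L ^ 19 := by
  have p := h.L0
  have s0 := s_nonneg h.loc.pos
  have hm := Real.sqrt_nonneg (L ^ 3 * s G z)
  have hx := Real.sq_sqrt (show 0 ≤ L ^ 3 * s G z by positivity)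
  have hg := gam_le p h.bd
  have c := cd_diff (cd_ofReal hη)
  have a := arith h.one h0 h1 hm hx (h.lap_s hm hg) h.lap_f
    (max_ineq h.loc.pos.inv.posSemidef h.inv p.le h.card (hη.mul hη) h.sm_s h.sm_f (by positivity)
      (mul_nonneg h0 h0) s0 (by positivity) (by positivity) (fun k => by
        simp only [ofReal_mul]
        rw [dz_mul c c, mul_comm (dz k _ z), ← two_mul, ← mul_assoc]
        exact norm_mul_le_of_le (by simp [abs_of_nonneg h0]) (h2 k)) h3 (h.dz_f hm hg) hmax)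
  have b := pow_le_pow_left₀ (mul_nonneg h0 hm) a 2
  rw [mul_pow, hx] at b
  exact le_of_mul_le_mul_left (a := L ^ 3) (by nlinarith) (by positivity)

end Calg

open Calg in
theorem st_CALG : HS.St_CALG := by
  intro n U S hU hS hSU
  obtain ⟨Q, hQ, hSQ, hQU⟩ := exists_compact_between hS hU hSU
  obtain ⟨η, e0, e1, e2⟩ := exists_contMDiffMap_zero_one_of_isClosed (n := ⊤) 𝓘(ℝ, E n)
    isOpen_interior.isClosed_compl hS.isClosed (disjoint_compl_left_iff_subset.2 hSQ)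
  have hη : ∀ w, ContDiffAt ℝ ∞ η w := fun w => η.contMDiff.contDiff.contDiffAt
  obtain ⟨c1, hc1, b1⟩ := HS.G80.eb_cpt
    (T := fun (_ : Unit) w => Matrix.of fun _ j => dz j (fun w => (η w : ℂ)) w) hQ
    fun w _ _ i j => cd_dz (cd_ofReal (hη w)) j
  obtain ⟨c2, hc2, b2⟩ := HS.G80.eb_cpt
    (T := fun (_ : Unit) => hess fun w => ((η w * η w : ℝ) : ℂ)) hQ
    fun w _ _ => smM_hess (cd_ofReal ((hη w).mul (hη w)))
  have n0 : (0 : ℝ) ≤ Fintype.card (Fin n) := Nat.cast_nonneg _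
  obtain ⟨c, hc⟩ : ∃ c : ℝ, c = Fintype.card (Fin n) + c1 + c2 := ⟨_, rfl⟩
  have c0 : 1 ≤ c := by linarith
  refine ⟨16 * c ^ 13, 13, by positivity, fun K G T hK h z hz k => ?_⟩
  obtain ⟨L, hL⟩ : ∃ L, L = c * K := ⟨_, rfl⟩
  have l1 : K ≤ L := hL ▸ le_mul_of_one_le_left (by linarith) c0
  have l2 : c ≤ L := hL ▸ le_mul_of_one_le_right (by linarith) hK
  have p : 0 < L := by linarith
  have pt : ∀ w ∈ U, Pt G T L w := fun w hw =>
    have ev := hU.eventually_mem hw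
    ⟨by linarith, by linarith, ev.mono fun x hx => (h x hx).2.2.2.1.posDef (by linarith),
      ev.mono fun x hx => (h x hx).2.2.1, ev.mono fun x hx => (h x hx).2.2.2.2.1, (h w hw).1,
      (h w hw).2.1, (h w hw).2.2.2.1.mono (by linarith) l1, (h w hw).2.2.2.2.2.1.mono l1,
      fun k => ((h w hw).2.2.2.2.2.2 k).mono l1⟩
  have hzQ := interior_subset (hSQ hz)
  obtain ⟨y, hy, hmax⟩ := hQ.exists_isMaxOn
    (f := fun w => η w * η w * s G w + 34 * L ^ 17 * f G w) ⟨z, hzQ⟩ fun w hw =>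
      ((((hη w).mul (hη w)).mul (pt w (hQU hw)).sm_s).add
        (contDiffAt_const.mul (pt w (hQU hw)).sm_f)).continuousAt.continuousWithinAt
  have py := pt y (hQU hy)
  have pz := pt z (hSU hz)
  have a1 : η y * η y * s G y ≤ 196 * L ^ 19 := by
    by_cases hi : y ∈ interior Q
    · exact core py (hη y) (e2 y).1 (e2 y).2 (fun j => (b1 y hy () j j).trans (by linarith))
        ((b2 y hy ()).mono (by linarith)) (hmax.isLocalMax (mem_interior_iff_mem_nhds.1 hi))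
    · rw [e0 hi, Pi.zero_apply, zero_mul, zero_mul]
      positivity
  have a2 : η z * η z * s G z + 34 * L ^ 17 * f G z ≤ η y * η y * s G y + 34 * L ^ 17 * f G y :=
    hmax hzQ
  rw [e1 hz, Pi.one_apply, one_mul, one_mul] at a2
  have a3 : s G z ≤ 230 * L ^ 19 := by
    nlinarith [mul_le_mul_of_nonneg_left (f_le p py.card py.bd) (show 0 ≤ 34 * L ^ 17 by positivity),
      mul_nonneg (show 0 ≤ 34 * L ^ 17 by positivity) (f_nonneg pz.loc.pos)]
  have a4 : √(L ^ 3 * s G z) ≤ 16 * L ^ 11 := Real.sqrt_le_iff.2 ⟨by positivity, by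
    nlinarith [mul_le_mul_of_nonneg_left a3 (show 0 ≤ L ^ 3 by positivity), pow_pos p 22]⟩
  rw [pz.loc.dM_eq]
  refine ((pz.bd.eb p).mul pz.card p.le (by positivity) ((gam_le p pz.bd k).mono a4)).mono ?_
  rw [hL]
  exact le_of_eq (by ring)

end Pool.Agent.Lib.HS68
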