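import Mathlib

/-! Matrix calculus over a commutative star ring with commuting derivations: connection,
curvature, the Chern-Lu identity and the Calabi identity. -/

namespace Pool.Agent.Lib.HS68

open Matrix

/-- Commuting derivations `d k`; the conjugate ones are `star ∘ d k ∘ star`. -/
structure DR (ι A : Type) [CommRing A] [StarRing A] where
  d : ι → A →+ A
  mul : ∀ k a b, d k (a * b) = d k a * b + a * d k b
  dd : ∀ k l a, d k (d l a) = d l (d k a)
  db' : ∀ k l a, d k (star (d l (star a))) = star (d l (star (d k a)))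

/-- An additive map with the Leibniz rule. -/
def Leib {A : Type} [Ring A] (δ : A →+ A) : Prop := ∀ a b, δ (a * b) = δ a * b + a * δ b

section leib

variable {ι A : Type} [Fintype ι] [DecidableEq ι] [CommRing A] {δ : A →+ A}

lemma Leib.one {R : Type} [Ring R] {δ : R →+ R} (h : Leib δ) : δ 1 = 0 := by
  simpa using h 1 1

omit [DecidableEq ι] in
lemma Leib.matrix (h : Leib δ) (M N : Matrix ι ι A) :
    δ.mapMatrix (M * N) = δ.mapMatrix M * N + M * δ.mapMatrix N := by
  ext i j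
  simp [Matrix.mul_apply, map_sum, h _ _, Finset.sum_add_distrib]

omit [DecidableEq ι] [Fintype ι] in
lemma Leib.smul (h : Leib δ) (a : A) (M : Matrix ι ι A) :
    δ.mapMatrix (a • M) = δ a • M + a • δ.mapMatrix M := by
  ext i j
  simp [h _ _]

lemma Leib.inv (h : Leib δ) {G : Matrix ι ι A} (hu : IsUnit G.det) :
    δ.mapMatrix G⁻¹ = -(G⁻¹ * δ.mapMatrix G * G⁻¹) := by
  have h1 : δ.mapMatrix (1 : Matrix ι ι A) = 0 := by
    simpa only [Matrix.mul_one, Matrix.one_mul, left_eq_add] using h.matrix (1 : Matrix ι ι A) 1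
  have h2 := h.matrix G⁻¹ G
  rw [nonsing_inv_mul _ hu, h1] at h2
  have h3 : δ.mapMatrix G⁻¹ * G = -(G⁻¹ * δ.mapMatrix G) := eq_neg_of_add_eq_zero_left h2.symm
  calc δ.mapMatrix G⁻¹ = δ.mapMatrix G⁻¹ * G * G⁻¹ := by
        rw [Matrix.mul_assoc, mul_nonsing_inv _ hu, Matrix.mul_one]
    _ = _ := by rw [h3, Matrix.neg_mul]

/-- Jacobi's formula. -/
lemma Leib.det (h : Leib δ) {G : Matrix ι ι A} (hu : IsUnit G.det) :
    δ G.det = G.det * trace (G⁻¹ * δ.mapMatrix G) := by
  let φ : A →+* DualNumber A :=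
    { toFun := fun a => TrivSqZeroExt.inl a + TrivSqZeroExt.inr (δ a)
      map_one' := by simp [h.one]
      map_zero' := by simp
      map_add' := fun a b => by ext <;> simp
      map_mul' := fun a b => by ext <;> simp [h a b, mul_comm, add_comm] }
  let ψ : A →+* DualNumber A := algebraMap A (DualNumber A)
  have e : φ.mapMatrix G = ψ.mapMatrix G *
      (1 + (DualNumber.eps : DualNumber A) • ψ.mapMatrix (G⁻¹ * δ.mapMatrix G)) := by
    rw [Matrix.mul_add, Matrix.mul_one, Matrix.mul_smul, ← map_mul, ← Matrix.mul_assoc,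
      mul_nonsing_inv _ hu, Matrix.one_mul]
    ext i j <;> simp [φ, ψ, TrivSqZeroExt.algebraMap_eq_inl]
  have e2 := RingHom.map_det φ G
  rw [e, det_mul, det_one_add_smul, ← RingHom.map_det, pow_two, DualNumber.eps_mul_eps,
    mul_zero, add_zero] at e2
  have e3 : trace (ψ.mapMatrix (G⁻¹ * δ.mapMatrix G)) = ψ (trace (G⁻¹ * δ.mapMatrix G)) := by
    simp only [trace, diag, map_sum, RingHom.mapMatrix_apply, map_apply]
  rw [e3] at e2
  simpa [φ, ψ, TrivSqZeroExt.algebraMap_eq_inl] using congrArg TrivSqZeroExt.snd e2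

end leib

namespace DR

variable {ι A : Type} [CommRing A] [StarRing A] (D : DR ι A)

/-- The conjugate derivation. -/
def db (k : ι) : A →+ A where
  toFun a := star (D.d k (star a))
  map_zero' := by simp
  map_add' a b := by simp

lemma db_apply (k : ι) (a : A) : D.db k a = star (D.d k (star a)) := rfl

lemma leib_d (k : ι) : Leib (D.d k) := D.mul k

lemma leib_db (k : ι) : Leib (D.db k) := fun a b => by
  simp [db_apply, D.mul]

lemma d_db (k l : ι) (a : A) : D.d k (D.db l a) = D.db l (D.d k a) := D.db' k l a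

lemma db_db (k l : ι) (a : A) : D.db k (D.db l a) = D.db l (D.db k a) := by
  simp [db_apply, D.dd k l]

lemma star_d (k : ι) (a : A) : star (D.d k a) = D.db k (star a) := by simp [db_apply]

lemma star_db (k : ι) (a : A) : star (D.db k a) = D.d k (star a) := by simp [db_apply]

/-- Entrywise derivative. -/
def dM (k : ι) : Matrix ι ι A →+ Matrix ι ι A := (D.d k).mapMatrix

/-- Entrywise conjugate derivative. -/
def bM (k : ι) : Matrix ι ι A →+ Matrix ι ι A := (D.db k).mapMatrix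

@[simp] lemma dM_apply (k i j : ι) (M : Matrix ι ι A) : D.dM k M i j = D.d k (M i j) := rfl

@[simp] lemma bM_apply (k i j : ι) (M : Matrix ι ι A) : D.bM k M i j = D.db k (M i j) := rfl

lemma dM_dM (k l : ι) (M : Matrix ι ι A) : D.dM k (D.dM l M) = D.dM l (D.dM k M) := by
  ext i j; exact D.dd k l _

lemma dM_bM (k l : ι) (M : Matrix ι ι A) : D.dM k (D.bM l M) = D.bM l (D.dM k M) := by
  ext i j; exact D.d_db k l _

lemma bM_bM (k l : ι) (M : Matrix ι ι A) : D.bM k (D.bM l M) = D.bM l (D.bM k M) := by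
  ext i j; exact D.db_db k l _

lemma dM_conjTranspose (k : ι) (M : Matrix ι ι A) : D.dM k Mᴴ = (D.bM k M)ᴴ := by
  ext i j; simp [conjTranspose_apply, star_db]

lemma bM_conjTranspose (k : ι) (M : Matrix ι ι A) : D.bM k Mᴴ = (D.dM k M)ᴴ := by
  ext i j; simp [conjTranspose_apply, star_d]

lemma dM_smul (k : ι) (a : A) (M : Matrix ι ι A) :
    D.dM k (a • M) = D.d k a • M + a • D.dM k M := (D.leib_d k).smul a M

lemma bM_smul (k : ι) (a : A) (M : Matrix ι ι A) :
    D.bM k (a • M) = D.db k a • M + a • D.bM k M := (D.leib_db k).smul a M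

/-- The complex Hessian. -/
def hess (f : A) : Matrix ι ι A := of fun i j => D.db i (D.d j f)

/-- The Kaehler condition. -/
def Kah (G : Matrix ι ι A) : Prop := ∀ i j k, D.d k (G i j) = D.d j (G i k)

lemma kah_hess (f : A) : D.Kah (D.hess f) := fun i j k => by
  simp only [hess, of_apply, d_db, D.dd k j]

lemma hess_herm {f : A} (hf : star f = f) : (D.hess f).IsHermitian := by
  ext i j
  simp only [hess, conjTranspose_apply, of_apply, star_db, star_d, hf, d_db]

variable [Fintype ι]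

lemma dM_mul (k : ι) (M N : Matrix ι ι A) : D.dM k (M * N) = D.dM k M * N + M * D.dM k N :=
  (D.leib_d k).matrix M N

lemma bM_mul (k : ι) (M N : Matrix ι ι A) : D.bM k (M * N) = D.bM k M * N + M * D.bM k N :=
  (D.leib_db k).matrix M N

lemma d_trace (k : ι) (M : Matrix ι ι A) : D.d k (trace M) = trace (D.dM k M) := by
  simp [trace, map_sum]

lemma db_trace (k : ι) (M : Matrix ι ι A) : D.db k (trace M) = trace (D.bM k M) := by
  simp [trace, map_sum]

variable [DecidableEq ι]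

/-- The Chern connection. -/
noncomputable def Gam (G : Matrix ι ι A) (k : ι) : Matrix ι ι A := G⁻¹ * D.dM k G

/-- The curvature. -/
noncomputable def Th (G : Matrix ι ι A) (k l : ι) : Matrix ι ι A := -D.bM l (D.Gam G k)

/-- The Ricci form. -/
noncomputable def Ric (G : Matrix ι ι A) : Matrix ι ι A := of fun l k => trace (D.Th G k l)

/-- The Laplacian. -/
noncomputable def lap (G : Matrix ι ι A) (f : A) : A := trace (G⁻¹ * D.hess f)

/-- The difference of two connections. -/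
noncomputable def Dif (G H : Matrix ι ι A) (k : ι) : Matrix ι ι A := D.Gam G k - D.Gam H k

/-- The inner product of matrix valued `(1,0)`-forms. -/
noncomputable def ip (G H : Matrix ι ι A) (T U : ι → Matrix ι ι A) : A :=
  ∑ k, ∑ l, G⁻¹ k l * trace (G⁻¹ * (U l)ᴴ * H * T k)

/-- The covariant derivative of a matrix valued `(1,0)`-form. -/
noncomputable def nab (G H : Matrix ι ι A) (j : ι) (T : ι → Matrix ι ι A) (k : ι) : Matrix ι ι A :=
  D.dM j (T k) + D.Gam H j * T k - T k * D.Gam G j - ∑ m, D.Gam G j m k • T m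

variable {G H : Matrix ι ι A}

lemma lap_eq (f : A) : D.lap G f = ∑ j, ∑ i, G⁻¹ j i * D.db i (D.d j f) := by
  simp [lap, trace, Matrix.mul_apply, hess]

lemma dM_eq (hu : IsUnit G.det) (k : ι) : D.dM k G = G * D.Gam G k := by
  rw [Gam, ← Matrix.mul_assoc, mul_nonsing_inv _ hu, Matrix.one_mul]

lemma bM_eq (hG : G.IsHermitian) (hu : IsUnit G.det) (l : ι) : D.bM l G = (D.Gam G l)ᴴ * G := by
  conv_lhs => rw [← hG.eq, bM_conjTranspose, D.dM_eq hu, conjTranspose_mul, hG.eq]

lemma dM_inv (hu : IsUnit G.det) (k : ι) : D.dM k G⁻¹ = -(D.Gam G k * G⁻¹) :=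
  (D.leib_d k).inv hu

lemma bM_inv (hG : G.IsHermitian) (hu : IsUnit G.det) (l : ι) :
    D.bM l G⁻¹ = -(G⁻¹ * (D.Gam G l)ᴴ) := by
  conv_lhs => rw [← hG.inv.eq, bM_conjTranspose, D.dM_inv hu, conjTranspose_neg,
    conjTranspose_mul, hG.inv.eq]

lemma d_det (hu : IsUnit G.det) (k : ι) : D.d k G.det = G.det * trace (D.Gam G k) :=
  (D.leib_d k).det hu

/-- `Ric = - hess log det`. -/
lemma Ric_eq {L : A} (hL : ∀ k, D.d k L = trace (D.Gam G k)) : D.Ric G = -D.hess L := by
  ext l k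
  simp only [Ric, Th, hess, of_apply, Matrix.neg_apply, hL, db_trace, trace_neg]

lemma Gam_symm (hK : D.Kah G) (m j k : ι) : D.Gam G k m j = D.Gam G j m k := by
  simp only [Gam, Matrix.mul_apply, dM_apply, hK _ j k]

lemma Th_symm (hK : D.Kah G) (m a k l : ι) : D.Th G k l m a = D.Th G a l m k := by
  simp only [Th, Matrix.neg_apply, bM_apply, D.Gam_symm hK m a k]

lemma mul_Th (hG : G.IsHermitian) (hu : IsUnit G.det) (k l : ι) :
    G * D.Th G k l = (D.Gam G l)ᴴ * G * D.Gam G k - D.bM l (D.dM k G) := by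
  rw [D.dM_eq hu k, bM_mul, D.bM_eq hG hu, Th]
  noncomm_ring

lemma mul_Th_herm (hG : G.IsHermitian) (hu : IsUnit G.det) (k l : ι) :
    (G * D.Th G k l)ᴴ = G * D.Th G l k := by
  rw [D.mul_Th hG hu, D.mul_Th hG hu, conjTranspose_sub, ← dM_conjTranspose, ← bM_conjTranspose,
    hG.eq, dM_bM]
  simp only [conjTranspose_mul, conjTranspose_conjTranspose, hG.eq, Matrix.mul_assoc]

lemma mul_Th_symm (hK : D.Kah G) (k l a b : ι) : (G * D.Th G k l) b a = (G * D.Th G a l) b k := by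
  simp only [Matrix.mul_apply, D.Th_symm hK _ a k l]

lemma mul_Th_symm' (hG : G.IsHermitian) (hu : IsUnit G.det) (hK : D.Kah G) (k l a b : ι) :
    (G * D.Th G k l) b a = (G * D.Th G k b) l a := by
  rw [← D.mul_Th_herm hG hu l k, ← D.mul_Th_herm hG hu b k, conjTranspose_apply,
    conjTranspose_apply, D.mul_Th_symm hK]

lemma Ric_herm (hG : G.IsHermitian) (hu : IsUnit G.det) : (D.Ric G).IsHermitian := by
  have e : ∀ k l, trace (D.Th G k l) = trace (G⁻¹ * (G * D.Th G k l)) := fun k l => by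
    rw [← Matrix.mul_assoc, nonsing_inv_mul _ hu, Matrix.one_mul]
  ext l k
  simp only [Ric, conjTranspose_apply, of_apply]
  rw [e l k, e k l, ← trace_conjTranspose, conjTranspose_mul, D.mul_Th_herm hG hu, hG.inv.eq,
    trace_mul_comm]

/-- The trace of the curvature in the form indices is the Ricci endomorphism. -/
lemma ctr_Th (hG : G.IsHermitian) (hu : IsUnit G.det) (hK : D.Kah G) :
    ∑ k, ∑ l, G⁻¹ k l • D.Th G k l = G⁻¹ * D.Ric G := by
  have : G * ∑ k, ∑ l, G⁻¹ k l • D.Th G k l = D.Ric G := by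
    ext b a
    have e : trace (D.Th G a b) = trace (G⁻¹ * (G * D.Th G a b)) := by
      rw [← Matrix.mul_assoc, nonsing_inv_mul _ hu, Matrix.one_mul]
    simp only [Matrix.mul_sum, Matrix.mul_smul, Matrix.sum_apply, Matrix.smul_apply, smul_eq_mul, Ric,
      of_apply]
    rw [e, trace]
    refine Finset.sum_congr rfl fun k _ => ?_
    rw [diag_apply, Matrix.mul_apply]
    refine Finset.sum_congr rfl fun l _ => ?_
    rw [D.mul_Th_symm hK k l a b, D.mul_Th_symm' hG hu hK a l k b]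
  rw [← this, ← Matrix.mul_assoc, nonsing_inv_mul _ hu, Matrix.one_mul]

lemma dM_quot (hu : IsUnit G.det) (hv : IsUnit H.det) (k : ι) :
    D.dM k (G⁻¹ * H) = G⁻¹ * H * D.Gam H k - D.Gam G k * (G⁻¹ * H) := by
  rw [dM_mul, D.dM_inv hu, D.dM_eq hv]
  noncomm_ring

lemma bM_quot (hG : G.IsHermitian) (hu : IsUnit G.det) (hH : H.IsHermitian) (hv : IsUnit H.det)
    (l : ι) : D.bM l (G⁻¹ * H) = -(G⁻¹ * (D.Dif G H l)ᴴ * H) := by
  rw [bM_mul, D.bM_inv hG hu, D.bM_eq hH hv, Dif, conjTranspose_sub]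
  noncomm_ring

lemma d_trace_quot (hu : IsUnit G.det) (hv : IsUnit H.det) (k : ι) :
    D.d k (trace (G⁻¹ * H)) = -trace (G⁻¹ * H * D.Dif G H k) := by
  rw [d_trace, D.dM_quot hu hv, Dif, Matrix.mul_sub, trace_sub, trace_sub,
    trace_mul_comm (D.Gam G k)]
  ring

lemma bM_Dif (k l : ι) : D.bM l (D.Dif G H k) = D.Th H k l - D.Th G k l := by
  rw [Dif, map_sub, Th, Th]
  abel

/-- The Hessian of the trace. -/
lemma hess_trace_quot (hG : G.IsHermitian) (hu : IsUnit G.det) (hH : H.IsHermitian)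
    (hv : IsUnit H.det) (k l : ι) : D.db l (D.d k (trace (G⁻¹ * H))) =
      trace (G⁻¹ * (D.Dif G H l)ᴴ * H * D.Dif G H k) + trace (G⁻¹ * H * D.Th G k l) -
        trace (G⁻¹ * H * D.Th H k l) := by
  rw [D.d_trace_quot hu hv, map_neg, db_trace, bM_mul, D.bM_quot hG hu hH hv, bM_Dif,
    Matrix.mul_sub, Matrix.neg_mul, trace_add, trace_sub, trace_neg]
  ring

/-- The Chern-Lu identity. -/
theorem chern_lu (hG : G.IsHermitian) (hu : IsUnit G.det) (hK : D.Kah G) (hH : H.IsHermitian)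
    (hv : IsUnit H.det) : D.lap G (trace (G⁻¹ * H)) =
      ip G H (D.Dif G H) (D.Dif G H) + trace (G⁻¹ * H * G⁻¹ * D.Ric G) -
        ∑ k, ∑ l, G⁻¹ k l * trace (G⁻¹ * H * D.Th H k l) := by
  rw [Matrix.mul_assoc (G⁻¹ * H), ← D.ctr_Th hG hu hK, lap_eq, ip]
  simp only [D.hess_trace_quot hG hu hH hv, Matrix.mul_sum, Matrix.mul_smul, trace_sum,
    trace_smul, smul_eq_mul, mul_sub, mul_add, Finset.sum_add_distrib, Finset.sum_sub_distrib]

omit [DecidableEq ι] [StarRing A] in
lemma sum_swap3 (f : ι → ι → ι → A) :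
    ∑ k, ∑ l, ∑ m, f k l m = ∑ k, ∑ l, ∑ m, f m l k := by
  calc ∑ k, ∑ l, ∑ m, f k l m = ∑ l, ∑ k, ∑ m, f k l m := Finset.sum_comm
    _ = ∑ l, ∑ m, ∑ k, f k l m := Finset.sum_congr rfl fun _ _ => Finset.sum_comm
    _ = _ := Finset.sum_comm

lemma star_ip (hG : G.IsHermitian) (hH : H.IsHermitian) (T U : ι → Matrix ι ι A) :
    star (ip G H T U) = ip G H U T := by
  simp only [ip, star_sum, star_mul']
  rw [Finset.sum_comm]
  refine Finset.sum_congr rfl fun k _ => Finset.sum_congr rfl fun l _ => ?_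
  rw [← conjTranspose_apply, hG.inv.eq, ← trace_conjTranspose]
  simp only [conjTranspose_mul, conjTranspose_conjTranspose, hG.inv.eq, hH.eq]
  rw [← Matrix.mul_assoc, ← Matrix.mul_assoc, trace_mul_comm]
  simp only [Matrix.mul_assoc]

lemma ip_add_left (T T' U : ι → Matrix ι ι A) :
    ip G H (fun k => T k + T' k) U = ip G H T U + ip G H T' U := by
  simp only [ip, trace_add, mul_add, Finset.sum_add_distrib]

lemma ip_sub_left (T T' U : ι → Matrix ι ι A) :
    ip G H (fun k => T k - T' k) U = ip G H T U - ip G H T' U := by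
  simp only [ip, trace_sub, mul_sub, Finset.sum_sub_distrib]

lemma ip_smul_left (a : A) (T U : ι → Matrix ι ι A) :
    ip G H (fun k => a • T k) U = a * ip G H T U := by
  simp only [ip, Matrix.mul_smul, trace_smul, smul_eq_mul, Finset.mul_sum, mul_left_comm a]

lemma ip_sum_left {κ : Type} (s : Finset κ) (T : κ → ι → Matrix ι ι A) (U : ι → Matrix ι ι A) :
    ip G H (fun k => ∑ x ∈ s, T x k) U = ∑ x ∈ s, ip G H (T x) U := by
  simp only [ip, trace_sum, Finset.mul_sum]
  calc _ = ∑ k, ∑ x ∈ s, ∑ l, G⁻¹ k l * trace (G⁻¹ * (U l)ᴴ * H * T x k) :=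
        Finset.sum_congr rfl fun _ _ => Finset.sum_comm
    _ = _ := Finset.sum_comm

lemma d_ip (hu : IsUnit G.det) (hv : IsUnit H.det) (j : ι) (T U : ι → Matrix ι ι A) :
    D.d j (ip G H T U) = ip G H (D.nab G H j T) U + ip G H T (fun l => D.bM j (U l)) := by
  have e1 : ∀ k l, D.d j (G⁻¹ k l) = -∑ m, D.Gam G j k m * G⁻¹ m l := fun k l => by
    rw [← dM_apply, D.dM_inv hu, Matrix.neg_apply, Matrix.mul_apply]
  have e2 : ∀ k l, D.d j (trace (G⁻¹ * (U l)ᴴ * H * T k)) =
      trace (G⁻¹ * (U l)ᴴ * H * (D.dM j (T k) + D.Gam H j * T k - T k * D.Gam G j)) +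
        trace (G⁻¹ * (D.bM j (U l))ᴴ * H * T k) := fun k l => by
    rw [d_trace, dM_mul, dM_mul, dM_mul, D.dM_inv hu, D.dM_eq hv, dM_conjTranspose,
      Matrix.mul_sub, trace_sub, ← Matrix.mul_assoc _ (T k), trace_mul_comm _ (D.Gam G j),
      ← trace_sub, ← trace_add]
    congr 1
    noncomm_ring
  have e3 : ∑ k, ∑ l, (∑ m, D.Gam G j k m * G⁻¹ m l) * trace (G⁻¹ * (U l)ᴴ * H * T k) =
      ∑ k, ∑ l, G⁻¹ k l * trace (G⁻¹ * (U l)ᴴ * H * ∑ m, D.Gam G j m k • T m) := by
    simp only [Matrix.mul_smul, trace_sum, trace_smul, smul_eq_mul,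
      Finset.mul_sum, Finset.sum_mul]
    rw [sum_swap3]
    simp only [mul_assoc, mul_left_comm]
  simp only [ip, map_sum, D.mul, e1, e2, nab, neg_mul, Finset.sum_add_distrib,
    Finset.sum_neg_distrib, e3, mul_add]
  simp only [Matrix.mul_sub _ (_ - _), trace_sub, mul_sub, Finset.sum_sub_distrib]
  ring

lemma db_ip (hG : G.IsHermitian) (hu : IsUnit G.det) (hH : H.IsHermitian) (hv : IsUnit H.det)
    (j : ι) (T U : ι → Matrix ι ι A) :
    D.db j (ip G H T U) = ip G H (fun l => D.bM j (T l)) U + ip G H T (D.nab G H j U) := by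
  rw [db_apply, star_ip hG hH, D.d_ip hu hv, star_add, star_ip hG hH, star_ip hG hH, add_comm]

lemma bM_nab (i j : ι) (T : ι → Matrix ι ι A) (k : ι) :
    D.bM i (D.nab G H j T k) = D.nab G H j (fun l => D.bM i (T l)) k -
      (D.Th H j i * T k - T k * D.Th G j i - ∑ m, D.Th G j i m k • T m) := by
  simp only [nab, Th, map_sub, map_add, map_sum, bM_mul, bM_smul, dM_bM, Matrix.neg_apply, bM_apply,
    Finset.sum_add_distrib, neg_smul, Finset.sum_neg_distrib]
  noncomm_ring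

/-- Bochner formula for a matrix valued form. -/
theorem lap_ip (hG : G.IsHermitian) (hu : IsUnit G.det) (hH : H.IsHermitian) (hv : IsUnit H.det)
    (T : ι → Matrix ι ι A) : D.lap G (ip G H T T) =
      ∑ j, ∑ i, G⁻¹ j i * ip G H (D.nab G H j T) (D.nab G H i T) +
      ∑ j, ∑ i, G⁻¹ j i * ip G H (fun l => D.bM i (T l)) (fun l => D.bM j (T l)) +
      ip G H (fun k => ∑ j, ∑ i, G⁻¹ j i • D.nab G H j (fun l => D.bM i (T l)) k) T +
      ip G H T (fun k => ∑ j, ∑ i, G⁻¹ j i • D.nab G H j (fun l => D.bM i (T l)) k) -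
      ip G H (fun k => ∑ j, ∑ i, G⁻¹ j i •
        (D.Th H j i * T k - T k * D.Th G j i - ∑ m, D.Th G j i m k • T m)) T := by
  have e : ip G H T (fun k => ∑ j, ∑ i, G⁻¹ j i • D.nab G H j (fun l => D.bM i (T l)) k) =
      ∑ j, ∑ i, G⁻¹ j i * ip G H T (D.nab G H i fun l => D.bM j (T l)) := by
    rw [← star_ip hG hH]
    simp only [ip_sum_left, ip_smul_left, star_sum, star_mul', star_ip hG hH, hG.inv.apply]
    exact Finset.sum_comm
  rw [e, lap_eq]
  simp only [D.d_ip hu hv, map_add, D.db_ip hG hu hH hv, bM_nab, ip_sub_left, ip_sum_left,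
    ip_smul_left, mul_add, mul_sub, Finset.sum_add_distrib, Finset.sum_sub_distrib]
  ring

lemma flat (hu : IsUnit G.det) (j k : ι) : D.dM j (D.Gam G k) + D.Gam G j * D.Gam G k =
    D.dM k (D.Gam G j) + D.Gam G k * D.Gam G j := by
  have e : ∀ j k, D.dM j (D.Gam G k) + D.Gam G j * D.Gam G k = G⁻¹ * D.dM j (D.dM k G) := by
    intro j k
    conv_lhs => rw [Gam, dM_mul, D.dM_inv hu, Matrix.neg_mul, Matrix.mul_assoc, ← Gam]
    abel
  rw [e, e, dM_dM]

/-- The Bianchi identity. -/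
lemma bianchi (hu : IsUnit G.det) (j k i : ι) :
    D.dM j (D.Th G k i) + D.Gam G j * D.Th G k i - D.Th G k i * D.Gam G j =
      D.dM k (D.Th G j i) + D.Gam G k * D.Th G j i - D.Th G j i * D.Gam G k := by
  have := congrArg (D.bM i) (D.flat hu j k)
  simp only [map_add, bM_mul] at this
  simp only [Th, map_neg, dM_bM]
  rw [← sub_eq_zero] at this ⊢
  rw [← neg_eq_zero, ← this]
  noncomm_ring

/-- The contracted Bianchi identity. -/
lemma ctr_nab_Th (hG : G.IsHermitian) (hu : IsUnit G.det) (hK : D.Kah G) (k : ι) :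
    ∑ j, ∑ i, G⁻¹ j i • D.nab G G j (fun l => D.Th G l i) k =
      G⁻¹ * (D.dM k (D.Ric G) - D.Ric G * D.Gam G k) := by
  have e0 := D.ctr_Th hG hu hK
  have e1 := congrArg (D.dM k) e0
  have e2 : ∀ j i, D.d k (G⁻¹ j i) = -∑ m, D.Gam G k j m * G⁻¹ m i := fun j i => by
    rw [← dM_apply, D.dM_inv hu, Matrix.neg_apply, Matrix.mul_apply]
  have e3 : ∑ j, ∑ i, (∑ m, D.Gam G k j m * G⁻¹ m i) • D.Th G j i =
      ∑ j, ∑ i, G⁻¹ j i • ∑ m, D.Gam G j m k • D.Th G m i := by
    ext a b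
    simp only [Matrix.sum_apply, Matrix.smul_apply, smul_eq_mul, Finset.mul_sum, Finset.sum_mul]
    rw [sum_swap3]
    simp only [D.Gam_symm hK _ k, mul_assoc, mul_left_comm]
  simp only [map_sum, dM_smul, e2, neg_smul, Finset.sum_add_distrib, Finset.sum_neg_distrib, e3,
    dM_mul, D.dM_inv hu] at e1
  have e4 : ∑ j, ∑ i, G⁻¹ j i • (D.Gam G k * D.Th G j i) = D.Gam G k * (G⁻¹ * D.Ric G) := by
    rw [← e0]; simp only [Matrix.mul_sum, Matrix.mul_smul]
  have e5 : ∑ j, ∑ i, G⁻¹ j i • (D.Th G j i * D.Gam G k) = G⁻¹ * D.Ric G * D.Gam G k := by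
    rw [← e0]; simp only [Matrix.sum_mul, Matrix.smul_mul]
  simp only [nab, D.bianchi hu _ k, smul_sub, smul_add, Finset.sum_add_distrib,
    Finset.sum_sub_distrib, e4, e5]
  rw [eq_sub_of_add_eq' e1]
  noncomm_ring

lemma nab_sub (j : ι) (T U : ι → Matrix ι ι A) (k : ι) :
    D.nab G H j (fun l => T l - U l) k = D.nab G H j T k - D.nab G H j U k := by
  simp only [nab, map_sub, smul_sub, Finset.sum_sub_distrib]
  noncomm_ring

/-- Change of connection. -/
lemma nab_change (j : ι) (T : ι → Matrix ι ι A) (k : ι) :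
    D.nab G G j T k = D.nab H H j T k +
      (D.Dif G H j * T k - T k * D.Dif G H j - ∑ m, D.Dif G H j m k • T m) := by
  simp only [nab, Dif, Matrix.sub_apply, sub_smul, Finset.sum_sub_distrib]
  noncomm_ring

/-- The first order term of the Calabi identity. -/
noncomputable def calZ (G H : Matrix ι ι A) (k : ι) : Matrix ι ι A :=
  ∑ j, ∑ i, G⁻¹ j i • D.nab G G j (fun l => D.Th H l i) k -
    G⁻¹ * (D.dM k (D.Ric G) - D.Ric G * D.Gam G k)

/-- The Calabi identity. -/
theorem calabi (hG : G.IsHermitian) (hu : IsUnit G.det) (hK : D.Kah G) :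
    D.lap G (ip G G (D.Dif G H) (D.Dif G H)) =
      ∑ j, ∑ i, G⁻¹ j i * ip G G (D.nab G G j (D.Dif G H)) (D.nab G G i (D.Dif G H)) +
      ∑ j, ∑ i, G⁻¹ j i *
        ip G G (fun l => D.bM i (D.Dif G H l)) (fun l => D.bM j (D.Dif G H l)) +
      ip G G (D.calZ G H) (D.Dif G H) + ip G G (D.Dif G H) (D.calZ G H) -
      ip G G (fun k => G⁻¹ * D.Ric G * D.Dif G H k - D.Dif G H k * (G⁻¹ * D.Ric G) -
        ∑ m, (G⁻¹ * D.Ric G) m k • D.Dif G H m) (D.Dif G H) := by
  have e1 : (fun k => ∑ j, ∑ i, G⁻¹ j i • D.nab G G j (fun l => D.bM i (D.Dif G H l)) k) =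
      D.calZ G H := by
    funext k
    simp only [bM_Dif, nab_sub, smul_sub, Finset.sum_sub_distrib, D.ctr_nab_Th hG hu hK, calZ]
  have e2 : (fun k => ∑ j, ∑ i, G⁻¹ j i • (D.Th G j i * D.Dif G H k - D.Dif G H k * D.Th G j i -
      ∑ m, D.Th G j i m k • D.Dif G H m)) = fun k => G⁻¹ * D.Ric G * D.Dif G H k -
        D.Dif G H k * (G⁻¹ * D.Ric G) - ∑ m, (G⁻¹ * D.Ric G) m k • D.Dif G H m := by
    funext k
    rw [← D.ctr_Th hG hu hK]
    simp only [smul_sub, Finset.sum_sub_distrib, Matrix.mul_sum, Matrix.sum_mul, Matrix.mul_smul,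
      Matrix.smul_mul, Matrix.sum_apply, Matrix.smul_apply, smul_eq_mul, Finset.sum_smul,
      Finset.smul_sum, mul_smul]
    congr 1
    calc _ = ∑ j, ∑ m, ∑ i, G⁻¹ j i • D.Th G j i m k • D.Dif G H m :=
          Finset.sum_congr rfl fun _ _ => Finset.sum_comm
      _ = _ := Finset.sum_comm
  rw [D.lap_ip hG hu hG hu, e1, e2]

end DR

end Pool.Agent.Lib.HS68
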