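import Pool.Agent.Lib.HS68.Alg

/-! Germs of smooth functions at a point of `ℂ^n` form a ring with commuting derivations. -/

namespace Pool.Agent.Lib.HS68

open Filter Topology Complex Matrix
open scoped ContDiff

noncomputable section

variable {n : ℕ} {z : Fin n → ℂ}

/-- Wirtinger derivative in `z_j`. -/
def wz (j : Fin n) (f : (Fin n → ℂ) → ℂ) (w : Fin n → ℂ) : ℂ :=
  (fderiv ℝ f w (Pi.single j 1) - I * fderiv ℝ f w (Pi.single j I)) / 2

/-- Wirtinger derivative in the conjugate of `z_j`. -/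
def wb (j : Fin n) (f : (Fin n → ℂ) → ℂ) (w : Fin n → ℂ) : ℂ :=
  (fderiv ℝ f w (Pi.single j 1) + I * fderiv ℝ f w (Pi.single j I)) / 2

lemma fderiv_star_apply (f : (Fin n → ℂ) → ℂ) (w v : Fin n → ℂ) :
    fderiv ℝ (fun x => star (f x)) w v = star (fderiv ℝ f w v) := by
  have := conjCLE.comp_fderiv (f := f) (x := w)
  exact congrArg (fun L => L v) this

lemma wb_eq (j : Fin n) (f : (Fin n → ℂ) → ℂ) (w : Fin n → ℂ) :
    wb j f w = star (wz j (fun x => star (f x)) w) := by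
  simp only [wb, wz, fderiv_star_apply]
  simp

lemma smooth_dir {f : (Fin n → ℂ) → ℂ} (hf : ContDiffAt ℝ ∞ f z) (v : Fin n → ℂ) :
    ContDiffAt ℝ ∞ (fun w => fderiv ℝ f w v) z :=
  (hf.fderiv_right (m := ∞) (by simp)).clm_apply contDiffAt_const

lemma smooth_wz {f : (Fin n → ℂ) → ℂ} (hf : ContDiffAt ℝ ∞ f z) (j : Fin n) :
    ContDiffAt ℝ ∞ (wz j f) z :=
  ((smooth_dir hf _).sub (contDiffAt_const.mul (smooth_dir hf _))).div_const 2

lemma smooth_star {f : (Fin n → ℂ) → ℂ} (hf : ContDiffAt ℝ ∞ f z) :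
    ContDiffAt ℝ ∞ (fun w => star (f w)) z :=
  conjCLE.contDiff.contDiffAt.comp z hf

lemma ev_two {f : (Fin n → ℂ) → ℂ} (hf : ContDiffAt ℝ ∞ f z) : ∀ᶠ w in 𝓝 z, ContDiffAt ℝ 2 f w :=
  (hf.of_le (by norm_cast)).eventually (by simp)

lemma ev_diff {f : (Fin n → ℂ) → ℂ} (hf : ContDiffAt ℝ ∞ f z) :
    ∀ᶠ w in 𝓝 z, DifferentiableAt ℝ f w :=
  (ev_two hf).mono fun _ h => h.differentiableAt (by simp)

lemma wz_congr {f g : (Fin n → ℂ) → ℂ} (h : f =ᶠ[𝓝 z] g) (j : Fin n) :
    wz j f =ᶠ[𝓝 z] wz j g :=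
  (h.fderiv (𝕜 := ℝ)).mono fun w hw => by simp only [wz, hw]

lemma dir_comm {f : (Fin n → ℂ) → ℂ} {w : Fin n → ℂ} (hf : ContDiffAt ℝ 2 f w) (u v : Fin n → ℂ) :
    fderiv ℝ (fun x => fderiv ℝ f x u) w v = fderiv ℝ (fun x => fderiv ℝ f x v) w u := by
  have hd : DifferentiableAt ℝ (fderiv ℝ f) w :=
    (hf.fderiv_right (m := 1) (by norm_num)).differentiableAt (by simp)
  rw [fderiv_clm_apply hd (differentiableAt_const _), fderiv_clm_apply hd (differentiableAt_const _)]
  simpa using (hf.isSymmSndFDerivAt (by simp)).eq v u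

lemma fderiv_comb {f : (Fin n → ℂ) → ℂ} {w : Fin n → ℂ} (hf : ContDiffAt ℝ 2 f w) (c : ℂ)
    (a b v : Fin n → ℂ) : fderiv ℝ (fun x => (fderiv ℝ f x a + c * fderiv ℝ f x b) / 2) w v =
      (fderiv ℝ (fun x => fderiv ℝ f x a) w v + c * fderiv ℝ (fun x => fderiv ℝ f x b) w v) / 2 := by
  have hd : ∀ u, DifferentiableAt ℝ (fun x => fderiv ℝ f x u) w := fun u =>
    ((hf.fderiv_right (m := 1) (by norm_num)).differentiableAt (by simp)).clm_apply
      (differentiableAt_const _)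
  have := (((hd a).hasFDerivAt.add ((hd b).hasFDerivAt.const_mul c)).mul_const (2⁻¹ : ℂ)).fderiv
  simp only [div_eq_mul_inv]
  refine (congrArg (fun L => L v) this).trans ?_
  simp only [_root_.add_apply, _root_.smul_apply, smul_eq_mul]
  ring

lemma wz_fun (j : Fin n) (f : (Fin n → ℂ) → ℂ) : wz j f = fun x =>
    (fderiv ℝ f x (Pi.single j 1) + -I * fderiv ℝ f x (Pi.single j I)) / 2 := by
  funext x
  simp only [wz, neg_mul, sub_eq_add_neg]

lemma wz_wz {f : (Fin n → ℂ) → ℂ} {w : Fin n → ℂ} (hf : ContDiffAt ℝ 2 f w) (k l : Fin n) :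
    wz k (wz l f) w = wz l (wz k f) w := by
  rw [wz, wz, wz_fun l f, wz_fun k f]
  simp only [fderiv_comb hf]
  rw [dir_comm hf (Pi.single l 1) (Pi.single k 1), dir_comm hf (Pi.single l I) (Pi.single k 1),
    dir_comm hf (Pi.single l 1) (Pi.single k I), dir_comm hf (Pi.single l I) (Pi.single k I)]
  ring

lemma wz_wb {f : (Fin n → ℂ) → ℂ} {w : Fin n → ℂ} (hf : ContDiffAt ℝ 2 f w) (k l : Fin n) :
    wz k (wb l f) w = wb l (wz k f) w := by
  rw [wz, wb, wz_fun k f]
  unfold wb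
  simp only [fderiv_comb hf]
  rw [dir_comm hf (Pi.single l 1) (Pi.single k 1), dir_comm hf (Pi.single l I) (Pi.single k 1),
    dir_comm hf (Pi.single l 1) (Pi.single k I), dir_comm hf (Pi.single l I) (Pi.single k I)]
  ring

variable (z) in
/-- Germs of smooth functions. -/
def Gm : Subring (Germ (𝓝 z) ℂ) where
  carrier := {a | ∃ f : (Fin n → ℂ) → ℂ, ContDiffAt ℝ ∞ f z ∧ (f : Germ (𝓝 z) ℂ) = a}
  mul_mem' := by
    rintro _ _ ⟨f, hf, rfl⟩ ⟨g, hg, rfl⟩
    exact ⟨f * g, hf.mul hg, rfl⟩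
  one_mem' := ⟨1, contDiffAt_const, rfl⟩
  add_mem' := by
    rintro _ _ ⟨f, hf, rfl⟩ ⟨g, hg, rfl⟩
    exact ⟨f + g, hf.add hg, rfl⟩
  zero_mem' := ⟨0, contDiffAt_const, rfl⟩
  neg_mem' := by
    rintro _ ⟨f, hf, rfl⟩
    exact ⟨-f, hf.neg, rfl⟩

/-- The germ `a` is represented by the function `f`. -/
def Rep (a : Gm z) (f : (Fin n → ℂ) → ℂ) : Prop := (f : Germ (𝓝 z) ℂ) = a.1

lemma exists_rep {f : (Fin n → ℂ) → ℂ} (hf : ContDiffAt ℝ ∞ f z) : ∃ a : Gm z, Rep a f :=
  ⟨⟨f, f, hf, rfl⟩, rfl⟩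

lemma rep_exists (a : Gm z) : ∃ f, Rep a f := ⟨_, a.2.choose_spec.2⟩

namespace Rep

variable {a b : Gm z} {f g : (Fin n → ℂ) → ℂ}

lemma ev (ha : Rep a f) (hb : Rep a g) : f =ᶠ[𝓝 z] g := Germ.coe_eq.1 (ha.trans hb.symm)

lemma congr (ha : Rep a f) (h : f =ᶠ[𝓝 z] g) : Rep a g := (Germ.coe_eq.2 h).symm.trans ha

lemma ext (ha : Rep a f) (hb : Rep b g) (h : f =ᶠ[𝓝 z] g) : a = b :=
  Subtype.ext (ha.symm.trans ((Germ.coe_eq.2 h).trans hb))

/-- An identity between germs gives the identity of the values. -/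
lemma val (ha : Rep a f) (hb : Rep b g) (h : a = b) : f z = g z := (ha.ev (h ▸ hb)).eq_of_nhds

lemma smooth (ha : Rep a f) : ContDiffAt ℝ ∞ f z := by
  obtain ⟨g, hg, e⟩ := a.2
  exact hg.congr_of_eventuallyEq (ha.ev e)

lemma add (ha : Rep a f) (hb : Rep b g) : Rep (a + b) fun w => f w + g w := by
  unfold Rep at *
  rw [Subring.coe_add, ← ha, ← hb]; rfl

lemma mul (ha : Rep a f) (hb : Rep b g) : Rep (a * b) fun w => f w * g w := by
  unfold Rep at *
  rw [Subring.coe_mul, ← ha, ← hb]; rfl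

lemma neg (ha : Rep a f) : Rep (-a) fun w => -f w := by
  unfold Rep at *
  rw [Subring.coe_neg, ← ha]; rfl

lemma sub (ha : Rep a f) (hb : Rep b g) : Rep (a - b) fun w => f w - g w := by
  simpa only [sub_eq_add_neg] using ha.add hb.neg

lemma zero : Rep (0 : Gm z) fun _ => 0 := rfl

lemma one : Rep (1 : Gm z) fun _ => 1 := rfl

lemma sum {κ : Type} (s : Finset κ) {a : κ → Gm z} {f : κ → (Fin n → ℂ) → ℂ}
    (h : ∀ i, Rep (a i) (f i)) : Rep (∑ i ∈ s, a i) fun w => ∑ i ∈ s, f i w := by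
  classical
  induction s using Finset.induction_on with
  | empty => simpa using zero
  | insert i s hi ih => simpa only [Finset.sum_insert hi] using (h i).add ih

lemma prod {κ : Type} (s : Finset κ) {a : κ → Gm z} {f : κ → (Fin n → ℂ) → ℂ}
    (h : ∀ i, Rep (a i) (f i)) : Rep (∏ i ∈ s, a i) fun w => ∏ i ∈ s, f i w := by
  classical
  induction s using Finset.induction_on with
  | empty => simpa using one
  | insert i s hi ih => simpa only [Finset.prod_insert hi] using (h i).mul ih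

lemma pow (ha : Rep a f) (m : ℕ) : Rep (a ^ m) fun w => f w ^ m := by
  induction m with
  | zero => simpa using one
  | succ m ih => simpa only [pow_succ] using ih.mul ha

end Rep

instance : Star (Gm z) where
  star a := ⟨a.1.map star, by
    obtain ⟨f, hf, e⟩ := a.2
    exact ⟨fun w => star (f w), smooth_star hf, e ▸ rfl⟩⟩

lemma Rep.star {a : Gm z} {f : (Fin n → ℂ) → ℂ} (ha : Rep a f) :
    Rep (star a) fun w => star (f w) := by
  change _ = a.1.map Star.star
  rw [← ha]; rfl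

instance : StarRing (Gm z) where
  star_involutive a := by
    obtain ⟨f, hf⟩ := rep_exists a
    exact hf.star.star.ext hf (by simp)
  star_mul a b := by
    obtain ⟨f, hf⟩ := rep_exists a
    obtain ⟨g, hg⟩ := rep_exists b
    exact (hf.mul hg).star.ext (hg.star.mul hf.star) (by simp [mul_comm])
  star_add a b := by
    obtain ⟨f, hf⟩ := rep_exists a
    obtain ⟨g, hg⟩ := rep_exists b
    exact (hf.add hg).star.ext (hf.star.add hg.star) (by simp)

/-- The derivative of a germ. -/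
def gd (j : Fin n) (a : Gm z) : Gm z :=
  ⟨wz j (rep_exists a).choose, _, smooth_wz (rep_exists a).choose_spec.smooth j, rfl⟩

lemma Rep.gd {a : Gm z} {f : (Fin n → ℂ) → ℂ} (ha : Rep a f) (j : Fin n) :
    Rep (gd j a) (wz j f) :=
  Germ.coe_eq.2 (wz_congr (ha.ev (rep_exists a).choose_spec) j)

variable (z) in
/-- The germs with the Wirtinger derivatives. -/
def germDR : DR (Fin n) (Gm z) where
  d j := AddMonoidHom.mk' (gd j) fun a b => by
    obtain ⟨f, hf⟩ := rep_exists a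
    obtain ⟨g, hg⟩ := rep_exists b
    refine ((hf.add hg).gd j).ext ((hf.gd j).add (hg.gd j)) ?_
    filter_upwards [ev_diff hf.smooth, ev_diff hg.smooth] with w h1 h2
    simp only [wz, fderiv_fun_add h1 h2, _root_.add_apply]
    ring
  mul j a b := by
    obtain ⟨f, hf⟩ := rep_exists a
    obtain ⟨g, hg⟩ := rep_exists b
    refine ((hf.mul hg).gd j).ext (((hf.gd j).mul hg).add (hf.mul (hg.gd j))) ?_
    filter_upwards [ev_diff hf.smooth, ev_diff hg.smooth] with w h1 h2
    simp only [wz, fderiv_fun_mul h1 h2, _root_.add_apply,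
      _root_.smul_apply, smul_eq_mul]
    ring
  dd k l a := by
    obtain ⟨f, hf⟩ := rep_exists a
    exact ((hf.gd l).gd k).ext ((hf.gd k).gd l) ((ev_two hf.smooth).mono fun w h => wz_wz h k l)
  db' k l a := by
    obtain ⟨f, hf⟩ := rep_exists a
    refine (((hf.star.gd l).star).gd k).ext (((hf.gd k).star.gd l).star) ?_
    filter_upwards [ev_two hf.smooth] with w h
    rw [← wb_eq, ← wz_wb h]
    congr 1
    funext x
    exact (wb_eq l f x).symm

namespace Rep

variable {a : Gm z} {f : (Fin n → ℂ) → ℂ}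

lemma d (ha : Rep a f) (j : Fin n) : Rep ((germDR z).d j a) (wz j f) := ha.gd j

lemma db (ha : Rep a f) (j : Fin n) : Rep ((germDR z).db j a) (wb j f) :=
  (ha.star.gd j).star.congr (Eventually.of_forall fun w => (wb_eq j f w).symm)

lemma isUnit (ha : Rep a f) (h0 : f z ≠ 0) : IsUnit a := by
  obtain ⟨b, hb⟩ := exists_rep (ha.smooth.inv h0)
  refine IsUnit.of_mul_eq_one b ((ha.mul hb).ext one ?_)
  filter_upwards [ha.smooth.continuousAt.eventually_ne h0] with w hw
  exact mul_inv_cancel₀ hw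

end Rep

/-- The matrix of germs `M` is represented by the matrix valued function `F`. -/
def RepM {ι κ : Type} (M : Matrix ι κ (Gm z)) (F : (Fin n → ℂ) → Matrix ι κ ℂ) : Prop :=
  ∀ i j, Rep (M i j) fun w => F w i j

lemma exists_repM {ι κ : Type} {F : (Fin n → ℂ) → Matrix ι κ ℂ}
    (hF : ∀ i j, ContDiffAt ℝ ∞ (fun w => F w i j) z) : ∃ M : Matrix ι κ (Gm z), RepM M F := by
  choose M hM using fun i j => exists_rep (hF i j)
  exact ⟨of M, hM⟩

namespace RepM

variable {ι κ μ : Type} {M N : Matrix ι κ (Gm z)} {F G : (Fin n → ℂ) → Matrix ι κ ℂ}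

lemma ext [Finite ι] [Finite κ] (hM : RepM M F) (hN : RepM N G) (h : F =ᶠ[𝓝 z] G) : M = N := by
  ext1 i j
  exact (hM i j).ext (hN i j) (h.mono fun w hw => by simp only [hw])

lemma congr (hM : RepM M F) (h : F =ᶠ[𝓝 z] G) : RepM M G := fun i j =>
  (hM i j).congr (h.mono fun w hw => by simp only [hw])

lemma ev [Finite ι] [Finite κ] (hM : RepM M F) (hN : RepM M G) : F =ᶠ[𝓝 z] G := by
  have : ∀ᶠ w in 𝓝 z, ∀ i j, F w i j = G w i j :=
    eventually_all.2 fun i => eventually_all.2 fun j => (hM i j).ev (hN i j)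
  exact this.mono fun w hw => Matrix.ext hw

/-- An identity between matrices of germs gives the identity of the values. -/
lemma val (hM : RepM M F) (hN : RepM N G) (h : M = N) : F z = G z :=
  Matrix.ext fun i j => (hM i j).val (hN i j) (by rw [h])

lemma add (hM : RepM M F) (hN : RepM N G) : RepM (M + N) fun w => F w + G w :=
  fun i j => (hM i j).add (hN i j)

lemma sub (hM : RepM M F) (hN : RepM N G) : RepM (M - N) fun w => F w - G w :=
  fun i j => (hM i j).sub (hN i j)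

lemma neg (hM : RepM M F) : RepM (-M) fun w => -F w := fun i j => (hM i j).neg

lemma smul {a : Gm z} {f : (Fin n → ℂ) → ℂ} (ha : Rep a f) (hM : RepM M F) :
    RepM (a • M) fun w => f w • F w := fun i j => ha.mul (hM i j)

lemma conjTranspose (hM : RepM M F) : RepM Mᴴ fun w => (F w)ᴴ := fun i j => (hM j i).star

lemma sum {α : Type} (s : Finset α) {M : α → Matrix ι κ (Gm z)}
    {F : α → (Fin n → ℂ) → Matrix ι κ ℂ} (h : ∀ x, RepM (M x) (F x)) :
    RepM (∑ x ∈ s, M x) fun w => ∑ x ∈ s, F x w := fun i j => by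
  simpa only [Matrix.sum_apply] using Rep.sum s fun x => h x i j

lemma mul [Fintype κ] {N : Matrix κ μ (Gm z)} {G : (Fin n → ℂ) → Matrix κ μ ℂ} (hM : RepM M F)
    (hN : RepM N G) : RepM (M * N) fun w => F w * G w := fun i j => by
  simpa only [Matrix.mul_apply] using Rep.sum Finset.univ fun k => (hM i k).mul (hN k j)

lemma one [DecidableEq ι] : RepM (1 : Matrix ι ι (Gm z)) fun _ => 1 := fun i j => by
  simp only [Matrix.one_apply]
  split_ifs
  exacts [Rep.one, Rep.zero]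

section square

variable [Fintype ι] {M : Matrix ι ι (Gm z)} {F : (Fin n → ℂ) → Matrix ι ι ℂ}

lemma trace (hM : RepM M F) : Rep (trace M) fun w => trace (F w) :=
  Rep.sum Finset.univ fun i => hM i i

lemma isHermitian (hM : RepM M F) (h : ∀ᶠ w in 𝓝 z, (F w).IsHermitian) : M.IsHermitian :=
  hM.conjTranspose.ext hM h

variable [DecidableEq ι]

lemma det (hM : RepM M F) : Rep M.det fun w => (F w).det := by
  have key : ∀ u : ℤˣ, Rep (((u : ℤ) : Gm z)) fun _ => ((u : ℤ) : ℂ) := by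
    intro u
    rcases Int.units_eq_one_or u with rfl | rfl
    · simpa using Rep.one
    · simpa using Rep.one.neg
  simp only [det_apply']
  exact Rep.sum _ fun σ => (key _).mul (Rep.prod _ fun i => hM _ _)

lemma isUnit_det (hM : RepM M F) (h0 : (F z).det ≠ 0) : IsUnit M.det := hM.det.isUnit h0

lemma inv (hM : RepM M F) (h0 : (F z).det ≠ 0) : RepM M⁻¹ fun w => (F w)⁻¹ := by
  choose G hG using fun i j => rep_exists (M⁻¹ i j)
  have hG' : RepM M⁻¹ fun w => of fun i j => G i j w := hG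
  have h1 := hG'.mul hM
  rw [nonsing_inv_mul _ (hM.isUnit_det h0)] at h1
  refine hG'.congr ((h1.ev one).mono fun w hw => ?_)
  exact (inv_eq_left_inv hw).symm

end square

variable {M : Matrix (Fin n) (Fin n) (Gm z)} {F : (Fin n → ℂ) → Matrix (Fin n) (Fin n) ℂ}

lemma dM (hM : RepM M F) (k : Fin n) :
    RepM ((germDR z).dM k M) fun w => of fun i j => wz k (fun x => F x i j) w :=
  fun i j => (hM i j).d k

lemma bM (hM : RepM M F) (k : Fin n) :
    RepM ((germDR z).bM k M) fun w => of fun i j => wb k (fun x => F x i j) w :=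
  fun i j => (hM i j).db k

lemma kah (hM : RepM M F)
    (h : ∀ᶠ w in 𝓝 z, ∀ i j k, wz k (fun x => F x i j) w = wz j (fun x => F x i k) w) :
    (germDR z).Kah M := fun i j k =>
  ((hM i j).d k).ext ((hM i k).d j) (h.mono fun _ hw => hw i j k)

end RepM

lemma Rep.hess {a : Gm z} {f : (Fin n → ℂ) → ℂ} (ha : Rep a f) :
    RepM ((germDR z).hess a) fun w => of fun i j => wb i (wz j f) w :=
  fun i j => (ha.d j).db i

end

end Pool.Agent.Lib.HS68
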