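import Pool.Agent.Lib.HS68.Fun

/-! The Laplacian of the logarithm of the Gram determinant of holomorphic vector fields. -/

namespace Pool.Agent.Lib.HS68

open Filter Topology Complex Matrix
open Pool.Agent.Lib.SV (E)
open Pool.Agent.Lib.HS32
open scoped ContDiff ComplexOrder MatrixOrder

noncomputable section

lemma Leib.rect {A α β γ : Type} [CommRing A] [Fintype β] {δ : A →+ A} (h : Leib δ)
    (M : Matrix α β A) (N : Matrix β γ A) : (M * N).map δ = M.map δ * N + M * N.map δ := by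
  ext i j
  simp [Matrix.mul_apply, map_sum, h _ _, Finset.sum_add_distrib]

namespace DR

variable {ι κ A : Type} [CommRing A] [StarRing A] (D : DR ι A)

lemma map_d_conj {α β : Type} (k : ι) (M : Matrix α β A) :
    Mᴴ.map (D.d k) = (M.map (D.db k))ᴴ := by
  ext i j; simp [conjTranspose_apply, star_db]

lemma map_db_conj {α β : Type} (k : ι) (M : Matrix α β A) :
    Mᴴ.map (D.db k) = (M.map (D.d k))ᴴ := by
  ext i j; simp [conjTranspose_apply, star_d]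

variable [Fintype ι] [DecidableEq ι] [Fintype κ] [DecidableEq κ] {G : Matrix ι ι A}
  {ξ : Matrix ι κ A}

/-- The covariant derivative of the columns. -/
noncomputable def cov (G : Matrix ι ι A) (ξ : Matrix ι κ A) (k : ι) : Matrix ι κ A :=
  D.Gam G k * ξ + ξ.map (D.d k)

omit [Fintype κ] [DecidableEq κ] in
lemma d_mul_cov (hu : IsUnit G.det) (k : ι) : (G * ξ).map (D.d k) = G * D.cov G ξ k := by
  rw [(D.leib_d k).rect, cov, Matrix.mul_add, ← Matrix.mul_assoc, ← D.dM_eq hu]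
  rfl

omit [Fintype κ] [DecidableEq κ] in
lemma db_cov (hξ : ∀ l, ξ.map (D.db l) = 0) (k l : ι) :
    (D.cov G ξ k).map (D.db l) = -(D.Th G k l * ξ) := by
  have e : (ξ.map (D.d k)).map (D.db l) = 0 := by
    ext i j
    have := congrFun (congrFun (hξ l) i) j
    simp only [map_apply, Matrix.zero_apply] at this ⊢
    rw [← d_db, this, map_zero]
  rw [cov, Matrix.map_add _ (map_add _), (D.leib_db l).rect, hξ, e, Th, Matrix.neg_mul, neg_neg,
    Matrix.mul_zero, add_zero, add_zero]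
  rfl

omit [Fintype κ] [DecidableEq κ] in
lemma d_gram (hu : IsUnit G.det) (hξ : ∀ l, ξ.map (D.db l) = 0) (k : ι) :
    (ξᴴ * G * ξ).map (D.d k) = ξᴴ * G * D.cov G ξ k := by
  rw [Matrix.mul_assoc, (D.leib_d k).rect, map_d_conj, hξ, D.d_mul_cov hu, conjTranspose_zero,
    Matrix.zero_mul, zero_add, Matrix.mul_assoc]

omit [Fintype κ] [DecidableEq κ] in
lemma db_left (hG : G.IsHermitian) (hu : IsUnit G.det) (l : ι) :
    (ξᴴ * G).map (D.db l) = (D.cov G ξ l)ᴴ * G := by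
  conv_lhs => rw [← hG.eq, ← conjTranspose_mul, map_db_conj, D.d_mul_cov hu, conjTranspose_mul,
    hG.eq]

/-- The Hessian of the logarithm of the Gram determinant. -/
lemma hess_gram (hG : G.IsHermitian) (hu : IsUnit G.det) (hξ : ∀ l, ξ.map (D.db l) = 0)
    (hN : IsUnit (ξᴴ * G * ξ).det) (k l : ι) :
    D.db l (trace ((ξᴴ * G * ξ)⁻¹ * (ξᴴ * G * ξ).map (D.d k))) =
      trace ((ξᴴ * G * ξ)⁻¹ * (D.cov G ξ l)ᴴ * (G - G * ξ * (ξᴴ * G * ξ)⁻¹ * ξᴴ * G) *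
        D.cov G ξ k) - trace ((ξᴴ * G * ξ)⁻¹ * ξᴴ * G * D.Th G k l * ξ) := by
  have e0 : ∀ M : Matrix κ κ A, D.db l (trace M) = trace (M.map (D.db l)) := fun M => by
    simp [trace, map_sum]
  have e1 : (ξᴴ * G * ξ)⁻¹.map (D.db l) =
      -((ξᴴ * G * ξ)⁻¹ * (ξᴴ * G * ξ).map (D.db l) * (ξᴴ * G * ξ)⁻¹) := (D.leib_db l).inv hN
  rw [D.d_gram hu hξ, e0, (D.leib_db l).rect, e1, (D.leib_db l).rect (ξᴴ * G) ξ,
    (D.leib_db l).rect (ξᴴ * G) (D.cov G ξ k), D.db_left hG hu, hξ, D.db_cov hξ, ← trace_sub]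
  congr 1
  simp only [Matrix.mul_zero, add_zero, Matrix.mul_add, Matrix.mul_sub, Matrix.sub_mul,
    Matrix.neg_mul, Matrix.mul_neg, Matrix.mul_assoc]
  abel

lemma lap_gram (hG : G.IsHermitian) (hu : IsUnit G.det) (hK : D.Kah G)
    (hξ : ∀ l, ξ.map (D.db l) = 0) (hN : IsUnit (ξᴴ * G * ξ).det) {L : A}
    (hL : ∀ k, D.d k L = trace ((ξᴴ * G * ξ)⁻¹ * (ξᴴ * G * ξ).map (D.d k))) :
    D.lap G L = ∑ k, ∑ l, G⁻¹ k l * trace ((ξᴴ * G * ξ)⁻¹ * (D.cov G ξ l)ᴴ *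
      (G - G * ξ * (ξᴴ * G * ξ)⁻¹ * ξᴴ * G) * D.cov G ξ k) -
      trace ((ξᴴ * G * ξ)⁻¹ * (ξᴴ * D.Ric G * ξ)) := by
  have e : D.Ric G = G * ∑ k, ∑ l, G⁻¹ k l • D.Th G k l := by
    rw [D.ctr_Th hG hu hK, ← Matrix.mul_assoc, mul_nonsing_inv _ hu, Matrix.one_mul]
  rw [lap_eq, e]
  simp only [hL, D.hess_gram hG hu hξ hN]
  simp only [mul_sub, Finset.sum_sub_distrib, Matrix.mul_sum,
    Matrix.sum_mul, Matrix.mul_smul, Matrix.smul_mul, trace_sum, trace_smul, smul_eq_mul,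
    Matrix.mul_assoc]

end DR

section pt

variable {ι κ : Type} [Fintype ι] [DecidableEq ι] [Fintype κ] [DecidableEq κ]

omit [DecidableEq ι] in
lemma proj_psd {G : Matrix ι ι ℂ} (hG : G.PosSemidef) {ξ : Matrix ι κ ℂ}
    (hN : (ξᴴ * G * ξ).det ≠ 0) : (G - G * ξ * (ξᴴ * G * ξ)⁻¹ * ξᴴ * G).PosSemidef := by
  classical
  have h1 := (hG.conjTranspose_mul_mul_same ξ).1.inv
  have h2 : (ξᴴ * G * ξ)⁻¹ * (ξᴴ * G * ξ) = 1 := nonsing_inv_mul _ (Ne.isUnit hN)
  have h3 := hG.conjTranspose_mul_mul_same (1 - ξ * (ξᴴ * G * ξ)⁻¹ * ξᴴ * G)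
  have h4 : (1 - ξ * (ξᴴ * G * ξ)⁻¹ * ξᴴ * G)ᴴ * G * (1 - ξ * (ξᴴ * G * ξ)⁻¹ * ξᴴ * G) =
      G - G * ξ * (ξᴴ * G * ξ)⁻¹ * ξᴴ * G := by
    have h5 : ∀ Y : Matrix κ ι ℂ, (ξᴴ * G * ξ)⁻¹ * (ξᴴ * (G * (ξ * Y))) = Y := fun Y => by
      rw [← Matrix.mul_assoc ξᴴ, ← Matrix.mul_assoc (ξᴴ * G), ← Matrix.mul_assoc, h2,
        Matrix.one_mul]
    rw [conjTranspose_sub, conjTranspose_one, conjTranspose_mul, conjTranspose_mul,
      conjTranspose_mul, h1.eq, hG.1.eq, conjTranspose_conjTranspose]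
    generalize (ξᴴ * G * ξ)⁻¹ = Q at h5 ⊢
    simp only [Matrix.sub_mul, Matrix.mul_sub, Matrix.one_mul, Matrix.mul_one, Matrix.mul_assoc,
      h5, sub_self, sub_zero]
  rwa [h4] at h3

omit [DecidableEq ι] [DecidableEq κ] in
lemma rect_form_nonneg {P : Matrix κ κ ℂ} (hP : P.PosSemidef) {H : Matrix ι ι ℂ}
    (hH : H.PosSemidef) (T : Matrix ι κ ℂ) : 0 ≤ trace (P * Tᴴ * H * T) := by
  classical
  obtain ⟨W, hW⟩ := CStarAlgebra.nonneg_iff_eq_star_mul_self.1 hP.nonneg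
  have := (hH.conjTranspose_mul_mul_same (T * Wᴴ)).trace_nonneg
  rw [conjTranspose_mul, conjTranspose_conjTranspose, ← Matrix.mul_assoc, trace_mul_comm] at this
  rw [hW, star_eq_conjTranspose]
  simpa only [Matrix.mul_assoc] using this

omit [DecidableEq ι] [DecidableEq κ] in
lemma ctr_rect_nonneg {P : Matrix κ κ ℂ} (hP : P.PosSemidef) {H Q : Matrix ι ι ℂ}
    (hH : H.PosSemidef) (hQ : Q.PosSemidef) (T : ι → Matrix ι κ ℂ) :
    0 ≤ ∑ k, ∑ l, Q k l * trace (P * (T l)ᴴ * H * T k) := by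
  refine ctr_nonneg (fun T U : Matrix ι κ ℂ => trace (P * Uᴴ * H * T)) (fun a T U => ?_)
    (fun T U => ?_) (rect_form_nonneg hP hH) hQ T
  · simp only [Matrix.mul_sum, Matrix.mul_smul, trace_sum, trace_smul, smul_eq_mul]
  · rw [← trace_conjTranspose]
    simp only [conjTranspose_mul, conjTranspose_conjTranspose, hP.1.eq, hH.1.eq]
    rw [← Matrix.mul_assoc, ← Matrix.mul_assoc, trace_mul_comm]
    simp only [Matrix.mul_assoc]

end pt

variable {n : ℕ} {z : E n} {κ : Type} [Fintype κ] [DecidableEq κ]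

section logdet

variable {N : E n → Matrix κ κ ℂ} {M : Matrix κ κ (Gm z)}

lemma ev_exp_det (hM : RepM M N) (hh : ∀ᶠ w in 𝓝 z, (N w).IsHermitian) (h0 : 0 < (N z).det.re) :
    ∀ᶠ w in 𝓝 z, 0 < (N w).det.re ∧ exp (Real.log (N w).det.re : ℝ) = (N w).det := by
  have hc : ContinuousAt (fun w => (N w).det.re) z :=
    continuous_re.continuousAt.comp hM.det.smooth.continuousAt
  filter_upwards [hc.eventually (lt_mem_nhds h0), hh] with w h1 h2
  refine ⟨h1, ?_⟩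
  rw [← ofReal_exp, Real.exp_log h1]
  exact conj_eq_iff_re.1 (DR.star_det h2)

/-- The germ of the logarithm of the determinant. -/
lemma rep_logdet (hM : RepM M N) (hh : ∀ᶠ w in 𝓝 z, (N w).IsHermitian) (h0 : 0 < (N z).det.re) :
    ∃ L : Gm z, Rep L (fun w => (Real.log (N w).det.re : ℝ)) ∧
      ∀ k, (germDR z).d k L = trace (M⁻¹ * M.map ((germDR z).d k)) := by
  have h1 : (N z).det ≠ 0 := fun h => by simp [h] at h0
  have hs : ContDiffAt ℝ ∞ (fun w => ((Real.log (N w).det.re : ℝ) : ℂ)) z :=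
    ofRealCLM.contDiff.contDiffAt.comp z
      ((reCLM.contDiff.contDiffAt.comp z hM.det.smooth).log h0.ne')
  obtain ⟨L, hL⟩ := exists_rep hs
  refine ⟨L, hL, fun k => ?_⟩
  have hu := hM.isUnit_det h1
  have e := ((germDR z).leib_d k).det hu
  refine hu.mul_left_cancel (Eq.trans ?_ e)
  refine (hM.det.mul (hL.d k)).ext
    ((hM.det.congr ((ev_exp_det hM hh h0).mono fun w hw => hw.2.symm)).d k) ?_
  filter_upwards [ev_exp_det hM hh h0, ev_diff hs] with w h2 h3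
  have h4 := dz_comp (hasDerivAt_exp _) h3 k
  rw [h2.2] at h4
  exact h4.symm

end logdet

/-- The subbundle inequality: for holomorphic columns `ξ` with non-zero Gram determinant. -/
theorem Loc.lap_log_gram {G : E n → Mat n} (h : Loc G z) (hK : Kl G z)
    {ξ : E n → Matrix (Fin n) κ ℂ} (hs : ∀ i a, ContDiffAt ℝ ∞ (fun w => ξ w i a) z)
    (hol : ∀ᶠ w in 𝓝 z, ∀ l i a, dzb l (fun x => ξ x i a) w = 0)
    (h0 : ((ξ z)ᴴ * G z * ξ z).det ≠ 0) :
    ContDiffAt ℝ ∞ (fun w => Real.log ((ξ w)ᴴ * G w * ξ w).det.re) z ∧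
    -(((ξ z)ᴴ * G z * ξ z)⁻¹ * ((ξ z)ᴴ * ricF G z * ξ z)).trace.re ≤
      ((G z)⁻¹ * hess (fun w => (Real.log ((ξ w)ᴴ * G w * ξ w).det.re : ℝ)) z).trace.re := by
  obtain ⟨M, hM, h1, hu⟩ := h.rep
  obtain ⟨X, hX⟩ := exists_repM hs
  have hN := (hX.conjTranspose.mul hM).mul hX
  have psd := h.pos.posSemidef.conjTranspose_mul_mul_same (ξ z)
  have hpos : 0 < ((ξ z)ᴴ * G z * ξ z).det.re :=
    (pos_iff.1 (lt_of_le_of_ne psd.det_nonneg h0.symm)).1
  obtain ⟨L, hL, hd⟩ := rep_logdet hN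
    (h.herm.mono fun w hw => isHermitian_conjTranspose_mul_mul _ hw) hpos
  have hX0 : ∀ l, X.map ((germDR z).db l) = 0 := fun l => by
    ext1 i a
    exact ((hX i a).db l).ext Rep.zero (hol.mono fun w hw => hw l i a)
  have hc : ∀ k, RepM ((germDR z).cov M X k) fun w =>
      gam G k w * ξ w + of fun i a => dz k (fun x => ξ x i a) w := fun k =>
    ((hM.gam h.det_ne k).mul hX).add fun i a => (hX i a).d k
  have hi := hN.inv h0
  have key := (hM.lap h.det_ne hL).val ((Rep.sum _ fun k => Rep.sum _ fun l =>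
    (hM.inv h.det_ne k l).mul (((hi.mul (hc l).conjTranspose).mul
      (hM.sub ((((hM.mul hX).mul hi).mul hX.conjTranspose).mul hM))).mul (hc k)).trace).sub
    (hi.mul ((hX.conjTranspose.mul (h.rep_ric hM)).mul hX)).trace)
    ((germDR z).lap_gram h1 hu (hM.kl hK) hX0 (hN.isUnit_det h0) hd)
  have nn := (nonneg_iff.1 (ctr_rect_nonneg psd.inv (proj_psd h.pos.posSemidef h0)
    h.pos.inv.posSemidef fun k => gam G k z * ξ z + of fun i a => dz k (fun x => ξ x i a) z)).1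
  refine ⟨(reCLM.contDiff.contDiffAt.comp z hN.det.smooth).log hpos.ne', ?_⟩
  have key' := congrArg re key
  rw [sub_re] at key'
  rw [key']
  linarith

/-- If `θ - c G` is non-negative on the span of the columns, the trace is at least `c r`. -/
lemma trace_gram_ge {ι : Type} [Fintype ι] {G θ : Matrix ι ι ℂ} (hG : G.PosSemidef)
    {ξ : Matrix ι κ ℂ} (h0 : (ξᴴ * G * ξ).det ≠ 0) {c : ℝ}
    (hc : (ξᴴ * θ * ξ - (c : ℂ) • (ξᴴ * G * ξ)).PosSemidef) :
    c * Fintype.card κ ≤ ((ξᴴ * G * ξ)⁻¹ * (ξᴴ * θ * ξ)).trace.re := by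
  have h1 := rect_form_nonneg (hG.conjTranspose_mul_mul_same ξ).inv hc 1
  rw [conjTranspose_one, Matrix.mul_one, Matrix.mul_one, Matrix.mul_sub, Matrix.mul_smul,
    nonsing_inv_mul _ (Ne.isUnit h0), trace_sub, trace_smul, trace_one] at h1
  have h2 := (nonneg_iff.1 h1).1
  simp only [sub_re, smul_eq_mul, mul_re, ofReal_re, natCast_re, ofReal_im, natCast_im, mul_zero,
    sub_zero] at h2
  linarith

end

end Pool.Agent.Lib.HS68
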